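import Mathlib
import Pool.Agent.PRF2.Cop3

/-!
# Exponents of the primes outside a set `T`
-/

namespace PRF3

open PRF PRF.TGap PRF2

open Classical in
/-- the prime factors outside `T` -/
noncomputable def ps (T : Set ℕ) (n : ℕ) : Finset ℕ := n.primeFactors.filter (· ∉ T)

theorem mem_ps {T : Set ℕ} {n q : ℕ} : q ∈ ps T n ↔ q ∈ n.primeFactors ∧ q ∉ T := by
  classical
  unfold ps
  rw [Finset.mem_filter]

/-- the largest exponent outside `T` -/
noncomputable def mx (T : Set ℕ) (n : ℕ) : ℕ := (ps T n).sup fun q => n.factorization q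

/-- the least exponent outside `T` -/
noncomputable def mu (T : Set ℕ) (n : ℕ) : ℕ := sInf {v | ∃ q ∈ ps T n, v = n.factorization q}

variable {T : Set ℕ}

theorem le_mx {n q : ℕ} (hq : q ∉ T) : n.factorization q ≤ mx T n := by
  by_cases h : q ∈ n.primeFactors
  · exact Finset.le_sup (f := fun q => n.factorization q) (mem_ps.mpr ⟨h, hq⟩)
  · rw [fz0 h]
    exact Nat.zero_le _

theorem exists_top {n : ℕ} (hn : (ps T n).Nonempty) : ∃ p ∈ ps T n, n.factorization p = mx T n := by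
  obtain ⟨p, hp, h⟩ := Finset.exists_mem_eq_sup (ps T n) hn (fun q => n.factorization q)
  exact ⟨p, hp, h.symm⟩

theorem ps_pos {n q : ℕ} (hq : q ∈ ps T n) : 0 < n.factorization q := fpos (mem_ps.mp hq).1

theorem ps_of_pos {n q : ℕ} (h : 0 < n.factorization q) (hq : q ∉ T) : q ∈ ps T n := mem_ps.mpr ⟨mem_of_pos h, hq⟩

theorem ps_ne {n : ℕ} (hn : (ps T n).Nonempty) : 2 ≤ n := by
  obtain ⟨q, hq⟩ := hn
  have h1 := (mem_ps.mp hq).1
  have h3 := Nat.le_of_mem_primeFactors h1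
  have h4 := (Nat.prime_of_mem_primeFactors h1).two_le
  omega

theorem mx_pos {n : ℕ} (hn : (ps T n).Nonempty) : 0 < mx T n := by
  obtain ⟨p, hp, h⟩ := exists_top hn
  rw [← h]
  exact ps_pos hp

theorem mu_le {n q : ℕ} (hq : q ∈ ps T n) : mu T n ≤ n.factorization q := Nat.sInf_le ⟨q, hq, rfl⟩

theorem mu_mem {n : ℕ} (hn : (ps T n).Nonempty) : ∃ q ∈ ps T n, mu T n = n.factorization q := by
  obtain ⟨q, hq⟩ := hn
  exact Nat.sInf_mem (s := {v | ∃ q ∈ ps T n, v = n.factorization q}) ⟨_, q, hq, rfl⟩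

theorem mu_pos {n : ℕ} (hn : (ps T n).Nonempty) : 1 ≤ mu T n := by
  obtain ⟨q, hq, h⟩ := mu_mem hn
  rw [h]
  exact ps_pos hq

theorem mu_le_mx {n : ℕ} (hn : (ps T n).Nonempty) : mu T n ≤ mx T n := by
  obtain ⟨p, hp, h⟩ := exists_top hn
  rw [← h]
  exact mu_le hp

theorem mx_lt {n : ℕ} (hn : (ps T n).Nonempty) : mx T n < n := by
  obtain ⟨p, -, h⟩ := exists_top hn
  have := ps_ne hn
  rw [← h]
  exact f_lt (by omega) p

theorem four_mx {n : ℕ} (hn : 64 ≤ n) (hn' : (ps T n).Nonempty) : 4 * mx T n < n := by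
  obtain ⟨p, -, h⟩ := exists_top hn'
  have h1 := PRF2.four_mx hn
  have h2 := PRF2.le_mx n p
  omega

/-- the exponents of `x ^ b * b` -/
theorem fz' {x b : ℕ} (hx : x ≠ 0) (hb : b ≠ 0) (q : ℕ) :
    (x ^ b * b).factorization q = b * x.factorization q + b.factorization q := by
  rw [Nat.factorization_mul (pow_ne_zero _ hx) hb, Finsupp.add_apply, Nat.factorization_pow, Finsupp.smul_apply,
    smul_eq_mul]

/-- `x` and `b` have no common prime factors outside `T` -/
def CoT (T : Set ℕ) (x b : ℕ) : Prop := ∀ q, q ∈ x.primeFactors → q ∈ b.primeFactors → q ∈ T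

theorem co_b {x b q : ℕ} (h : CoT T x b) (hq : q ∈ ps T x) : b.factorization q = 0 := by
  apply fz0
  intro h1
  exact (mem_ps.mp hq).2 (h q (mem_ps.mp hq).1 h1)

theorem co_x {x b q : ℕ} (h : CoT T x b) (hq : q ∈ ps T b) : x.factorization q = 0 := by
  apply fz0
  intro h1
  exact (mem_ps.mp hq).2 (h q h1 (mem_ps.mp hq).1)

section pair

variable {x b : ℕ} (hx : x ≠ 0) (hb : 2 ≤ b)

include hx hb in
theorem ps_z : ps T (x ^ b * b) = ps T x ∪ ps T b := by
  ext q
  rw [Finset.mem_union, mem_ps, mem_ps, mem_ps]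
  have h1 : q ∈ (x ^ b * b).primeFactors ↔ q ∈ x.primeFactors ∨ q ∈ b.primeFactors := by
    rw [Nat.primeFactors_mul (pow_ne_zero _ hx) (by omega), Nat.primeFactors_pow _ (by omega), Finset.mem_union]
  rw [h1]
  tauto

include hx hb in
theorem card_z (hco : CoT T x b) : (ps T (x ^ b * b)).card = (ps T x).card + (ps T b).card := by
  rw [ps_z hx hb, Finset.card_union_of_disjoint]
  rw [Finset.disjoint_left]
  intro q hq hq'
  have := co_b hco hq
  have := ps_pos hq'
  omega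

include hb in
theorem mx_z (hx' : (ps T x).Nonempty) (hco : CoT T x b) : mx T (x ^ b * b) = b * mx T x := by
  have hx2 := ps_ne hx'
  apply le_antisymm
  · apply Finset.sup_le
    intro q hq
    have hqT := (mem_ps.mp hq).2
    rw [fz' (by omega) (by omega)]
    by_cases hq : q ∈ ps T x
    · rw [co_b hco hq, add_zero]
      exact Nat.mul_le_mul_left b (le_mx hqT)
    · rw [fz0 (fun h => hq (mem_ps.mpr ⟨h, hqT⟩)), mul_zero, zero_add]
      exact (f_lt (by omega) q).le.trans (Nat.le_mul_of_pos_right b (mx_pos hx'))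
  · obtain ⟨p, hp, h⟩ := exists_top hx'
    rw [← h]
    refine le_trans ?_ (le_mx (mem_ps.mp hp).2)
    rw [fz' (by omega) (by omega)]
    exact Nat.le_add_right _ _

include hb in
theorem top_z (hx' : (ps T x).Nonempty) (hco : CoT T x b) {p : ℕ} (hpT : p ∉ T) :
    (x ^ b * b).factorization p = mx T (x ^ b * b) ↔ x.factorization p = mx T x := by
  have hx2 := ps_ne hx'
  rw [mx_z hb hx' hco, fz' (by omega) (by omega)]
  have h1 := mx_pos hx'
  have h2 : b * 1 ≤ b * mx T x := Nat.mul_le_mul_left b h1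
  constructor
  · intro h
    by_cases hq : p ∈ ps T x
    · rw [co_b hco hq, add_zero] at h
      exact Nat.eq_of_mul_eq_mul_left (by omega) h
    · exfalso
      rw [fz0 (fun h => hq (mem_ps.mpr ⟨h, hpT⟩)), mul_zero, zero_add] at h
      have := f_lt (n := b) (by omega) p
      omega
  · intro h
    have hq : p ∈ ps T x := ps_of_pos (by omega) hpT
    rw [co_b hco hq, h, add_zero]

include hb in
theorem fmx_z (hx' : (ps T x).Nonempty) (hco : CoT T x b) {q : ℕ} (hq : q ∈ ps T x) :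
    (mx T (x ^ b * b)).factorization q = (mx T x).factorization q := by
  have h1 := mx_pos hx'
  rw [mx_z hb hx' hco, Nat.factorization_mul (by omega) (by omega), Finsupp.add_apply, co_b hco hq, zero_add]

include hx hb in
theorem ne_z (hb' : (ps T b).Nonempty) : (ps T (x ^ b * b)).Nonempty := by
  rw [ps_z hx hb]
  exact hb'.mono Finset.subset_union_right

end pair

theorem ps_bot (S : Finset ℕ) (x : ℕ) : ps T (bot S x) = ps T x \ S := by
  ext q
  rw [Finset.mem_sdiff, mem_ps, mem_ps, bot_pf, Finset.mem_sdiff]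
  tauto

theorem bot_mu {S : Finset ℕ} {x : ℕ} (h2 : (ps T (bot S x)).Nonempty)
    (h : ∀ q ∈ S, ∀ r, r ∉ S → r ∉ T → x.factorization r < x.factorization q) : mu T (bot S x) = mu T x := by
  obtain ⟨q, hq, hq1⟩ := mu_mem h2
  have hq2 : q ∈ ps T x \ S := by rw [← ps_bot]; exact hq
  rw [Finset.mem_sdiff] at hq2
  rw [bot_out x hq2.2] at hq1
  apply le_antisymm
  · obtain ⟨r, hr, hr1⟩ := mu_mem (T := T) (n := x) ⟨q, hq2.1⟩
    rw [hr1]
    by_cases hrS : r ∈ S
    · rw [hq1]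
      exact (h r hrS q hq2.2 (mem_ps.mp hq2.1).2).le
    · rw [← bot_out x hrS]
      exact mu_le (by rw [ps_bot]; exact Finset.mem_sdiff.mpr ⟨hr, hrS⟩)
  · rw [hq1]
    exact mu_le hq2.1

/-- the property of labels -/
def Lab (T : Set ℕ) (n : ℕ) : Prop := 64 ≤ n ∧ (ps T n).Nonempty ∧
  ∀ w, 0 < w → w ≤ mu T n * mu T n → ¬ mx T n ∣ n * w

/-- `x` and `b` are `m`-th powers for an `m` which is large in terms of the least exponent of `x` outside `T` -/
def Con (T : Set ℕ) (x b : ℕ) : Prop := ∃ m, (∃ s, x = s ^ m) ∧ (∃ s, b = s ^ m) ∧ mu T x < m * m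

/-- the edges -/
def Ec (T : Set ℕ) (x n : ℕ) : Prop := ∃ b, (ps T x).Nonempty ∧ Lab T b ∧ CoT T x b ∧ Con T x b ∧
  mu T x ≤ mu T b ∧ n = x ^ b * b

/-- the vertices -/
def Qd (T : Set ℕ) (M n : ℕ) : Prop := (ps T n).Nonempty ∧ (ps T n).card ≤ M

/-- invariants of a walk -/
theorem walk_inv {Q : ℕ → Prop} {x y l : ℕ} (h : Wk (Ec T) Q x y l) :
    (∀ p, p ∉ T → (x.factorization p = mx T x ↔ y.factorization p = mx T y)) ∧
    ((ps T x).Nonempty → ∀ p, p ∉ T → x.factorization p = mx T x →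
      (mx T x).factorization p = (mx T y).factorization p) ∧
    ((ps T x).Nonempty → (ps T y).Nonempty) := by
  induction h with
  | refl h => exact ⟨fun _ _ => Iff.rfl, fun _ _ _ _ => rfl, id⟩
  | step y z l h h1 h2 ih =>
    obtain ⟨i1, i2, i3⟩ := ih
    rcases h1 with ⟨b, hy2, ⟨hb, hb', -⟩, hco, -, -, hz⟩ | ⟨b, hz2, ⟨hb, hb', -⟩, hco, -, -, hy⟩
    · have hb2 : 2 ≤ b := by omega
      have hy0 := ps_ne hy2
      subst hz
      refine ⟨fun p hp => (i1 p hp).trans (top_z hb2 hy2 hco hp).symm, fun hx2 p hpT hp => ?_, fun _ => ?_⟩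
      · rw [i2 hx2 p hpT hp]
        have hp' := (i1 p hpT).mp hp
        have := mx_pos hy2
        exact (fmx_z hb2 hy2 hco (ps_of_pos (by omega) hpT)).symm
      · exact ne_z (by omega) hb2 hb'
    · have hb2 : 2 ≤ b := by omega
      subst hy
      refine ⟨fun p hp => (i1 p hp).trans (top_z hb2 hz2 hco hp), fun hx2 p hpT hp => ?_, fun _ => hz2⟩
      rw [i2 hx2 p hpT hp]
      have hp' := (top_z hb2 hz2 hco hpT).mp ((i1 p hpT).mp hp)
      have := mx_pos hz2
      exact fmx_z hb2 hz2 hco (ps_of_pos (by omega) hpT)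

end PRF3
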