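import Mathlib
import Pool.Agent.PRF3.T1

/-!
# Separation of labels
-/

namespace PRF3

open PRF PRF.TGap PRF2

variable {T : Set ℕ}

/-- separation of numbers with equal largest exponents outside `T` -/
def Sep (T : Set ℕ) (M : ℕ) : Prop := ∀ x x' l, Wk (Ec T) (Qd T M) x x' l → mx T x = mx T x' → ∀ e e', 0 < e →
  0 < e' → e ≤ mu T x → e' ≤ mu T x' →
  (∀ q, q ∉ T → e'.factorization q + x'.factorization q = e.factorization q + x.factorization q) → x = x'

/-- closed walks have even length -/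
def Evn (T : Set ℕ) (M : ℕ) : Prop := ∀ x l, Wk (Ec T) (Qd T M) x x l → Even l

theorem Sep.mono {M M' : ℕ} (h : M' ≤ M) (hS : Sep T M) : Sep T M' := by
  intro x x' l hw
  exact hS x x' l (hw.mono fun n hn => ⟨hn.1, hn.2.trans h⟩)

theorem Evn.mono {M M' : ℕ} (h : M' ≤ M) (hE : Evn T M) : Evn T M' := by
  intro x l hw
  exact hE x l (hw.mono fun n hn => ⟨hn.1, hn.2.trans h⟩)

theorem lab_aux {Y Y' e e' : ℕ} (hY : Lab T Y) (he : 0 < e) (he' : 0 < e') (hle : e ≤ mu T Y) (hle' : e' ≤ mu T Y)
    (h : e' * Y' * mx T Y = e * Y * mx T Y') {p : ℕ}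
    (hp : e'.factorization p + mx T Y' = e.factorization p + mx T Y) : mx T Y = mx T Y' := by
  have j1 := f_lt (show e ≠ 0 by omega) p
  have j2 := f_lt (show e' ≠ 0 by omega) p
  by_contra hne
  have h1 : mx T Y ∣ e * Y * mx T Y' := ⟨e' * Y', by rw [← h]; ring⟩
  have h2 : mx T Y ∣ e * Y * mx T Y := Dvd.intro_left _ rfl
  rcases lt_or_gt_of_ne hne with hlt | hlt
  · obtain ⟨d, hd⟩ := Nat.exists_eq_add_of_lt hlt
    apply hY.2.2 (e * (d + 1)) (by positivity)
    · exact Nat.mul_le_mul hle (by omega)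
    · have h3 := (Nat.dvd_sub h1 h2)
      have h4 : e * Y * mx T Y' - e * Y * mx T Y = Y * (e * (d + 1)) := by
        rw [← Nat.mul_sub]
        have : mx T Y' - mx T Y = d + 1 := by omega
        rw [this]; ring
      rwa [h4] at h3
  · obtain ⟨d, hd⟩ := Nat.exists_eq_add_of_lt hlt
    apply hY.2.2 (e * (d + 1)) (by positivity)
    · exact Nat.mul_le_mul hle (by omega)
    · have h3 := (Nat.dvd_sub h2 h1)
      have h4 : e * Y * mx T Y - e * Y * mx T Y' = Y * (e * (d + 1)) := by
        rw [← Nat.mul_sub]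
        have : mx T Y - mx T Y' = d + 1 := by omega
        rw [this]; ring
      rwa [h4] at h3

/-- the vertex above a vertex without prime factors outside `T` -/
theorem base_f {u b q : ℕ} (hu : u ≠ 0) (huT : ∀ q, q ∉ T → u.factorization q = 0) (hb : b ≠ 0) (hq : q ∉ T) :
    (u ^ b * b).factorization q = b.factorization q := by
  rw [fz' hu hb, huT q hq, mul_zero, zero_add]

theorem base_ps {u b : ℕ} (hu : u ≠ 0) (huT : ∀ q, q ∉ T → u.factorization q = 0) (hb : b ≠ 0) :
    ps T (u ^ b * b) = ps T b := by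
  ext q
  constructor
  · intro h
    have h1 := ps_pos h
    rw [base_f hu huT hb (mem_ps.mp h).2] at h1
    exact ps_of_pos h1 (mem_ps.mp h).2
  · intro h
    have h1 := ps_pos h
    rw [← base_f hu huT hb (mem_ps.mp h).2] at h1
    exact ps_of_pos h1 (mem_ps.mp h).2

theorem base_mx {u b : ℕ} (hu : u ≠ 0) (huT : ∀ q, q ∉ T → u.factorization q = 0) (hb : b ≠ 0) :
    mx T (u ^ b * b) = mx T b := by
  unfold mx
  rw [base_ps hu huT hb]
  apply Finset.sup_congr rfl
  intro q hq
  exact base_f hu huT hb (mem_ps.mp hq).2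

theorem base_mu {u b : ℕ} (hu : u ≠ 0) (huT : ∀ q, q ∉ T → u.factorization q = 0) (hb : b ≠ 0) :
    mu T (u ^ b * b) = mu T b := by
  unfold mu
  rw [base_ps hu huT hb]
  congr 1
  ext v
  constructor
  · rintro ⟨q, hq, h⟩
    exact ⟨q, hq, by rw [h, base_f hu huT hb (mem_ps.mp hq).2]⟩
  · rintro ⟨q, hq, h⟩
    exact ⟨q, hq, by rw [h, base_f hu huT hb (mem_ps.mp hq).2]⟩

/-- separation of labels -/
theorem labSep {M b b' u u' l : ℕ} (hS : Sep T M) (hu : u ≠ 0) (hu' : u' ≠ 0)
    (huT : ∀ q, q ∉ T → u.factorization q = 0) (huT' : ∀ q, q ∉ T → u'.factorization q = 0)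
    (hw : Wk (Ec T) (Qd T M) (u ^ b * b) (u' ^ b' * b') l) (hb : Lab T b) (hb' : Lab T b') {e e' : ℕ}
    (he : 0 < e) (he' : 0 < e') (hle : e ≤ mu T b) (hle' : e' ≤ mu T b') (h : e' * b' * mx T b = e * b * mx T b') :
    b = b' ∧ u = u' := by
  obtain ⟨hb64, hbn, -⟩ := id hb
  obtain ⟨hb64', hbn', -⟩ := id hb'
  have hb0 : b ≠ 0 := by omega
  have hb0' : b' ≠ 0 := by omega
  have hm := mx_pos hbn
  have hm' := mx_pos hbn'
  have hwm := base_mx hu huT hb0
  have hwm' := base_mx hu' huT' hb0'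
  have hpsn : (ps T (u ^ b * b)).Nonempty := by rw [base_ps hu huT hb0]; exact hbn
  obtain ⟨i1, i2, -⟩ := walk_inv hw
  obtain ⟨p, hp, hpx⟩ := exists_top hbn
  have hpT := (mem_ps.mp hp).2
  have hpw : (u ^ b * b).factorization p = mx T (u ^ b * b) := by rw [hwm, base_f hu huT hb0 hpT, hpx]
  have hpx' := (i1 p hpT).mp hpw
  have i5 := i2 hpsn p hpT hpw
  rw [hwm', base_f hu' huT' hb0' hpT] at hpx'
  rw [hwm, hwm'] at i5
  have h1 := congrArg (fun n => n.factorization p) h
  rw [Nat.factorization_mul (mul_ne_zero (by omega) (by omega)) (by omega),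
    Nat.factorization_mul (mul_ne_zero (by omega) (by omega)) (by omega),
    Nat.factorization_mul (by omega) (by omega), Nat.factorization_mul (by omega) (by omega)] at h1
  simp only [Finsupp.add_apply] at h1
  rw [hpx, hpx', i5] at h1
  have hmm : mx T b = mx T b' := by
    rcases le_total (mu T b') (mu T b) with hle2 | hle2
    · exact lab_aux hb he he' hle (hle'.trans hle2) h (p := p) (by omega)
    · exact (lab_aux hb' he' he hle' (hle.trans hle2) h.symm (p := p) (by omega)).symm
  have h2 : e' * b' = e * b := by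
    rw [hmm] at h
    exact Nat.eq_of_mul_eq_mul_right hm' h
  have hf : ∀ q, e'.factorization q + b'.factorization q = e.factorization q + b.factorization q := by
    intro q
    have h3 := congrArg (fun n => n.factorization q) h2
    rw [Nat.factorization_mul (by omega) (by omega), Nat.factorization_mul (by omega) (by omega),
      Finsupp.add_apply, Finsupp.add_apply] at h3
    exact h3
  have hww : u ^ b * b = u' ^ b' * b' := by
    apply hS _ _ l hw (by rw [hwm, hwm', hmm]) e e' he he' (by rw [base_mu hu huT hb0]; exact hle)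
      (by rw [base_mu hu' huT' hb0']; exact hle')
    intro q hq
    rw [base_f hu huT hb0 hq, base_f hu' huT' hb0' hq]
    exact hf q
  -- a large common divisor of `b` and `b'`
  have hpp := Nat.prime_of_mem_primeFactors (mem_ps.mp hp).1
  have d1 : p ^ mx T b ∣ b := by rw [← hpx]; exact Nat.ordProj_dvd b p
  have d2 : p ^ mx T b ∣ b' := by rw [hmm, ← hpx']; exact Nat.ordProj_dvd b' p
  have hlt : mx T b < p ^ mx T b :=
    lt_of_lt_of_le (Nat.lt_two_pow_self) (Nat.pow_le_pow_left hpp.two_le _)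
  have hmub := mu_le_mx hbn
  have hmub' := mu_le_mx hbn'
  rw [← hmm] at hmub'
  have hbb : b = b' := by
    apply Nat.eq_of_factorization_eq hb0 hb0'
    intro q
    have h3 := congrArg (fun n => n.factorization q) hww
    rw [fz' hu hb0, fz' hu' hb0'] at h3
    have h4 := hf q
    have j1 := f_lt (show e ≠ 0 by omega) q
    have j2 := f_lt (show e' ≠ 0 by omega) q
    have h5 : p ^ mx T b ∣ b * u.factorization q := Dvd.dvd.mul_right d1 _
    have h6 : p ^ mx T b ∣ b' * u'.factorization q := Dvd.dvd.mul_right d2 _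
    rcases le_total (b.factorization q) (b'.factorization q) with hle3 | hle3
    · have h7 : p ^ mx T b ∣ b'.factorization q - b.factorization q := by
        have h8 := Nat.dvd_sub h5 h6
        have h9 : b * u.factorization q - b' * u'.factorization q = b'.factorization q - b.factorization q := by
          omega
        rwa [h9] at h8
      have h8 := Nat.eq_zero_of_dvd_of_lt h7 (by omega)
      omega
    · have h7 : p ^ mx T b ∣ b.factorization q - b'.factorization q := by
        have h8 := Nat.dvd_sub h6 h5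
        have h9 : b' * u'.factorization q - b * u.factorization q = b.factorization q - b'.factorization q := by
          omega
        rwa [h9] at h8
      have h8 := Nat.eq_zero_of_dvd_of_lt h7 (by omega)
      omega
  refine ⟨hbb, ?_⟩
  rw [← hbb] at hww
  exact Nat.pow_left_injective hb0 (Nat.eq_of_mul_eq_mul_right (by omega) hww)

/-- two labels of one vertex are powers with a common exponent -/
theorem con_two {C Y Y' : ℕ} (hC : (ps T C).Nonempty) (h : Con T C Y) (h' : Con T C Y') :
    ∃ D P R, 2 ≤ D ∧ Y = P ^ D ∧ Y' = R ^ D := by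
  obtain ⟨m, ⟨s, hs⟩, ⟨t, ht⟩, hm⟩ := h
  obtain ⟨m', ⟨s', hs'⟩, ⟨t', ht'⟩, hm'⟩ := h'
  obtain ⟨q, hq, hq1⟩ := mu_mem hC
  have hmu := mu_pos hC
  have d1 : m ∣ mu T C := by
    rw [hq1, hs, Nat.factorization_pow]
    exact Dvd.intro _ rfl
  have d2 : m' ∣ mu T C := by
    rw [hq1, hs', Nat.factorization_pow]
    exact Dvd.intro _ rfl
  have h3 : Nat.lcm m m' ≤ mu T C := Nat.le_of_dvd hmu (Nat.lcm_dvd d1 d2)
  have h4 := Nat.gcd_mul_lcm m m'
  have h5 : 2 ≤ Nat.gcd m m' := by
    by_contra hcon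
    have h6 : Nat.gcd m m' ≤ 1 := by omega
    have h7 : m * m' ≤ mu T C := by
      rw [← h4]
      calc Nat.gcd m m' * Nat.lcm m m' ≤ 1 * mu T C := Nat.mul_le_mul h6 h3
        _ = mu T C := one_mul _
    have h8 : (mu T C) * (mu T C) < (m * m) * (m' * m') := Nat.mul_lt_mul'' hm hm'
    have h9 : (m * m') * (m * m') ≤ mu T C * mu T C := Nat.mul_le_mul h7 h7
    have h10 : (m * m) * (m' * m') = (m * m') * (m * m') := by ring
    omega
  obtain ⟨u, hu⟩ := Nat.gcd_dvd_left m m'
  obtain ⟨u', hu'⟩ := Nat.gcd_dvd_right m m'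
  refine ⟨Nat.gcd m m', t ^ u, t' ^ u', h5, ?_, ?_⟩
  · rw [← pow_mul, mul_comm, ← hu]
    exact ht
  · rw [← pow_mul, mul_comm, ← hu']
    exact ht'

end PRF3
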