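import Mathlib
import Pool.Agent.PRF3.T2

/-!
# The vertices reached from a vertex with the least number of prime factors outside `T`
-/

namespace PRF3

open PRF PRF.TGap PRF2

variable {T : Set ℕ}

/-- the description of the vertices reached from `C` -/
def St (T : Set ℕ) (M C n l : ℕ) : Prop := (n = C ∧ Even l) ∨ ((ps T (bot (ps T C) n)).Nonempty ∧
  (∀ q ∈ ps T C, n.factorization q * mx T C = C.factorization q * mx T n) ∧
  (∀ q ∈ ps T C, ∀ r, r ∉ ps T C → r ∉ T → n.factorization r < n.factorization q) ∧
  (∀ q ∈ ps T C, (mx T n).factorization q = (mx T C).factorization q) ∧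
  ∃ b l', Lab T b ∧ Con T C b ∧ mu T C ≤ mu T b ∧
    Wk (Ec T) (Qd T M) (bot (ps T C) C ^ b * b) (bot (ps T C) n) l' ∧ Even (l + l' + 1) ∧
    mx T n * mx T b = mx T C * b * mx T (bot (ps T C) n))

theorem mu_prop {C y : ℕ} (hC : (ps T C).Nonempty) (hS : ps T y = ps T C)
    (h : ∀ q ∈ ps T C, y.factorization q * mx T C = C.factorization q * mx T y) :
    mu T y * mx T C = mu T C * mx T y := by
  have hy : (ps T y).Nonempty := by rw [hS]; exact hC
  apply le_antisymm
  · obtain ⟨q, hq, h1⟩ := mu_mem hC
    rw [h1, ← h q hq]
    exact Nat.mul_le_mul_right _ (mu_le (by rw [hS]; exact hq))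
  · obtain ⟨q, hq, h1⟩ := mu_mem hy
    rw [hS] at hq
    rw [h1, h q hq]
    exact Nat.mul_le_mul_right _ (mu_le hq)

theorem con_bot {S : Finset ℕ} {x b : ℕ} (hx : x ≠ 0) (h2 : (ps T (bot S x)).Nonempty)
    (h : ∀ q ∈ S, ∀ r, r ∉ S → r ∉ T → x.factorization r < x.factorization q) (hc : Con T x b) :
    Con T (bot S x) b := by
  obtain ⟨m, h3, h4, h5⟩ := hc
  refine ⟨m, bot_pow hx h3, h4, ?_⟩
  rw [bot_mu h2 h]
  exact h5

/-- the part of `C` composed of primes of `T` -/
theorem base_T {C q : ℕ} (hq : q ∉ T) : (bot (ps T C) C).factorization q = 0 := by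
  by_cases h : q ∈ ps T C
  · exact bot_in _ h
  · rw [bot_out _ h]
    apply fz0
    intro h1
    exact h (mem_ps.mpr ⟨h1, hq⟩)

theorem bot_zT {S : Finset ℕ} {x b : ℕ} (hx : x ≠ 0) (hb : b ≠ 0) (h : ∀ q ∈ S, b.factorization q = 0) :
    bot S (x ^ b * b) = bot S x ^ b * b := by
  apply Nat.eq_of_factorization_eq (bot_ne _ _) (mul_ne_zero (pow_ne_zero _ (bot_ne _ _)) hb)
  intro q
  rw [fz' (bot_ne _ _) hb]
  by_cases hq : q ∈ S
  · rw [bot_in _ hq, bot_in _ hq, h q hq]
    simp
  · rw [bot_out _ hq, bot_out _ hq, fz' hx hb]

theorem co_bot {S : Finset ℕ} {x b : ℕ} (h : CoT T x b) : CoT T (bot S x) b := by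
  intro q hq hq'
  rw [bot_pf, Finset.mem_sdiff] at hq
  exact h q hq.1 hq'

theorem state {M C n l : ℕ} (hC : (ps T C).Nonempty) (hS : Sep T M) (hE : Evn T M)
    (h : Wk (Ec T) (fun n => Qd T (M + 1) n ∧ (ps T C).card ≤ (ps T n).card) C n l) :
    St T M C n l := by
  have hCc : 0 < (ps T C).card := Finset.card_pos.mpr hC
  have hC0 := ps_ne hC
  have hmC := mx_pos hC
  have hST : ∀ q ∈ ps T C, q ∉ T := fun q hq => (mem_ps.mp hq).2
  induction h with
  | refl h => exact Or.inl ⟨rfl, Even.zero⟩
  | step x y l h h1 h2 ih =>
    rcases ih with ⟨hx, hl⟩ | ⟨ht2, hpr, hord, hfm, b₀, l', hY, hcY, hmu, hw, hl, hmx⟩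
    · subst hx
      rcases h1 with ⟨b, hx2, hlab, hco, hcon, hm, hy⟩ | ⟨b, hy2, hlab, hco, hcon, hm, hx⟩
      · -- up from `C`
        have hb := hlab.1
        have hb2 : 2 ≤ b := by omega
        subst hy
        have hbC : ∀ q ∈ ps T x, b.factorization q = 0 := fun q hq => co_b hco hq
        have hbot := bot_zT (S := ps T x) (x := x) (b := b) (by omega) (by omega) hbC
        have hcard := card_z (T := T) (x := x) (by omega) hb2 hco
        have hps : ps T (bot (ps T x) x ^ b * b) = ps T b := base_ps (bot_ne _ _) (fun q => base_T) (by omega)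
        have hmxb : mx T (bot (ps T x) x ^ b * b) = mx T b := base_mx (bot_ne _ _) (fun q => base_T) (by omega)
        refine Or.inr ⟨by rw [hbot, hps]; exact hlab.2.1, ?_, ?_, ?_, b, 0, hlab, hcon, hm, ?_, ?_, ?_⟩
        · intro q hq
          rw [fz' (by omega) (by omega), hbC q hq, add_zero, mx_z hb2 hx2 hco]
          ring
        · intro q hq r hr hrT
          have hr0 : x.factorization r = 0 := fz0 fun h => hr (mem_ps.mpr ⟨h, hrT⟩)
          rw [fz' (by omega) (by omega), fz' (by omega) (by omega), hr0, hbC q hq, mul_zero, zero_add, add_zero]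
          exact lt_of_lt_of_le (f_lt (by omega) r) (Nat.le_mul_of_pos_right b (ps_pos hq))
        · intro q hq
          exact fmx_z hb2 hx2 hco hq
        · rw [hbot]
          refine Wk.refl ⟨by rw [hps]; exact hlab.2.1, ?_⟩
          rw [hps]
          have := h2.1.2
          omega
        · obtain ⟨k, hk⟩ := hl
          exact ⟨k + 1, by omega⟩
        · rw [hbot, hmxb, mx_z hb2 hx2 hco]
          ring
      · -- down from `C`
        exfalso
        have hb := hlab.1
        have hb2 : 2 ≤ b := by omega
        have hy0 := ps_ne hy2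
        have hcard := card_z (T := T) (x := y) (by omega) hb2 hco
        rw [← hx] at hcard
        have := Finset.card_pos.mpr hlab.2.1
        have := h2.2
        omega
    · have hx0 : 2 ≤ x := ps_ne h.right.1.1
      have hSx : ∀ q ∈ ps T C, q ∈ ps T x := by
        intro q hq
        have h5 := hpr q hq
        apply ps_of_pos _ (hST q hq)
        apply Nat.pos_of_ne_zero
        intro h0
        rw [h0, zero_mul] at h5
        have e1 := ps_pos hq
        have e2 : 0 < mx T x := mx_pos h.right.1.1
        have e3 : 0 < C.factorization q * mx T x := Nat.mul_pos e1 e2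
        omega
      rcases h1 with ⟨b, hx2, hlab, hco, hcon, hm, hy⟩ | ⟨b, hy2, hlab, hco, hcon, hm, hx⟩
      · -- up
        have hb := hlab.1
        have hb2 : 2 ≤ b := by omega
        subst hy
        have hbC : ∀ q ∈ ps T C, b.factorization q = 0 := fun q hq => co_b hco (hSx q hq)
        have hbot := bot_zT (S := ps T C) (x := x) (b := b) (by omega) (by omega) hbC
        have hcot : CoT T (bot (ps T C) x) b := co_bot hco
        have hSy : ps T C ⊆ ps T (x ^ b * b) := by
          intro q hq
          rw [ps_z (by omega) hb2]
          exact Finset.mem_union_left _ (hSx q hq)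
        have hcard : (ps T (bot (ps T C) (x ^ b * b))).card ≤ M := by
          rw [ps_bot, Finset.card_sdiff_of_subset hSy]
          have := h2.1.2
          omega
        have ht' : (ps T (bot (ps T C) (x ^ b * b))).Nonempty := by
          rw [hbot]
          exact ne_z (bot_ne _ _) hb2 hlab.2.1
        refine Or.inr ⟨ht', ?_, ?_, ?_, b₀, l' + 1, hY, hcY, hmu, ?_, ?_, ?_⟩
        · intro q hq
          rw [fz' (by omega) (by omega), hbC q hq, add_zero, mx_z hb2 hx2 hco]
          calc b * x.factorization q * mx T C = b * (x.factorization q * mx T C) := by ring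
            _ = b * (C.factorization q * mx T x) := by rw [hpr q hq]
            _ = C.factorization q * (b * mx T x) := by ring
        · intro q hq r hr hrT
          rw [fz' (by omega) (by omega), fz' (by omega) (by omega), hbC q hq, add_zero]
          have h5 := hord q hq r hr hrT
          by_cases hrx : r ∈ ps T x
          · rw [co_b hco hrx, add_zero]
            exact Nat.mul_lt_mul_of_pos_left h5 (by omega)
          · have hr0 : x.factorization r = 0 := fz0 fun h => hrx (mem_ps.mpr ⟨h, hrT⟩)
            rw [hr0, mul_zero, zero_add]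
            exact lt_of_lt_of_le (f_lt (by omega) r) (Nat.le_mul_of_pos_right b (ps_pos (hSx q hq)))
        · intro q hq
          rw [fmx_z hb2 hx2 hco (hSx q hq)]
          exact hfm q hq
        · refine Wk.step _ _ l' hw (Or.inl ⟨b, ht2, hlab, hcot, con_bot (by omega) ht2 hord hcon, ?_, hbot⟩)
            ⟨ht', hcard⟩
          rw [bot_mu ht2 hord]
          exact hm
        · obtain ⟨k, hk⟩ := hl
          exact ⟨k + 1, by omega⟩
        · rw [hbot, mx_z hb2 ht2 hcot, mx_z hb2 hx2 hco]
          calc b * mx T x * mx T b₀ = b * (mx T x * mx T b₀) := by ring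
            _ = b * (mx T C * b₀ * mx T (bot (ps T C) x)) := by rw [hmx]
            _ = _ := by ring
      · -- down
        have hb := hlab.1
        have hb2 : 2 ≤ b := by omega
        have hy0 := ps_ne hy2
        subst hx
        have hbC : ∀ q ∈ ps T C, b.factorization q = 0 := by
          intro q hq
          by_contra hne
          have hqb : q ∈ ps T b := ps_of_pos (by omega) (hST q hq)
          have hqy : y.factorization q = 0 := co_x hco hqb
          have e1 : (y ^ b * b).factorization q = b.factorization q := by
            rw [fz' (by omega) (by omega), hqy, mul_zero, zero_add]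
          have hsub : ps T y ⊆ (ps T C).erase q := by
            intro r hr
            rw [Finset.mem_erase]
            constructor
            · rintro rfl
              have := ps_pos hr
              omega
            · by_contra hrS
              have e2 := hord q hq r hrS (mem_ps.mp hr).2
              rw [e1, fz' (by omega) (by omega)] at e2
              have e3 := f_lt (n := b) (by omega) q
              have e4 : b * 1 ≤ b * y.factorization r := Nat.mul_le_mul_left b (ps_pos hr)
              omega
          have h5 := Finset.card_le_card hsub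
          rw [Finset.card_erase_of_mem hq] at h5
          have := h2.2
          omega
        have hSy : ∀ q ∈ ps T C, q ∈ ps T y := by
          intro q hq
          apply ps_of_pos _ (hST q hq)
          have h5 := ps_pos (hSx q hq)
          rw [fz' (by omega) (by omega), hbC q hq, add_zero] at h5
          exact Nat.pos_of_mul_pos_left h5 |> fun h => h
        have hpr' : ∀ q ∈ ps T C, y.factorization q * mx T C = C.factorization q * mx T y := by
          intro q hq
          have h5 := hpr q hq
          rw [fz' (by omega) (by omega), hbC q hq, add_zero, mx_z hb2 hy2 hco] at h5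
          apply Nat.eq_of_mul_eq_mul_left (show 0 < b by omega)
          calc b * (y.factorization q * mx T C) = b * y.factorization q * mx T C := by ring
            _ = _ := by rw [h5]; ring
        have hord' : ∀ q ∈ ps T C, ∀ r, r ∉ ps T C → r ∉ T → y.factorization r < y.factorization q := by
          intro q hq r hr hrT
          have h5 := hord q hq r hr hrT
          rw [fz' (by omega) (by omega), fz' (by omega) (by omega), hbC q hq, add_zero] at h5
          exact Nat.lt_of_mul_lt_mul_left (a := b) (by omega)
        have hfm' : ∀ q ∈ ps T C, (mx T y).factorization q = (mx T C).factorization q := by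
          intro q hq
          rw [← hfm q hq, fmx_z hb2 hy2 hco (hSy q hq)]
        have hbot := bot_zT (S := ps T C) (x := y) (b := b) (by omega) (by omega) hbC
        have hcot : CoT T (bot (ps T C) y) b := co_bot hco
        by_cases hby : (ps T (bot (ps T C) y)).Nonempty
        · have hcard : (ps T (bot (ps T C) y)).card ≤ M := by
            rw [ps_bot, Finset.card_sdiff_of_subset (fun q hq => hSy q hq)]
            have := h2.1.2
            omega
          refine Or.inr ⟨hby, hpr', hord', hfm', b₀, l' + 1, hY, hcY, hmu, ?_, ?_, ?_⟩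
          · refine Wk.step _ _ l' hw (Or.inr ⟨b, hby, hlab, hcot, con_bot (by omega) hby hord' hcon, ?_, hbot⟩)
              ⟨hby, hcard⟩
            rw [bot_mu hby hord']
            exact hm
          · obtain ⟨k, hk⟩ := hl
            exact ⟨k + 1, by omega⟩
          · rw [hbot, mx_z hb2 hby hcot, mx_z hb2 hy2 hco] at hmx
            apply Nat.eq_of_mul_eq_mul_left (show 0 < b by omega)
            calc b * (mx T y * mx T b₀) = b * mx T y * mx T b₀ := by ring
              _ = mx T C * b₀ * (b * mx T (bot (ps T C) y)) := hmx
              _ = _ := by ring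
        · -- back to `C`
          have hsupp : ps T y = ps T C := by
            apply Finset.Subset.antisymm
            · intro q hq
              by_contra hqS
              apply hby
              rw [ps_bot]
              exact ⟨q, Finset.mem_sdiff.mpr ⟨hq, hqS⟩⟩
            · exact fun q hq => hSy q hq
          have huT : ∀ q, q ∉ T → (bot (ps T C) y).factorization q = 0 := by
            intro q hq
            by_contra hne
            exact hby ⟨q, ps_of_pos (Nat.pos_of_ne_zero hne) hq⟩
          have hmp := mu_prop hC hsupp hpr'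
          have hmxb : mx T (bot (ps T C) y ^ b * b) = mx T b := base_mx (bot_ne _ _) huT (by omega)
          rw [hbot] at hw hmx
          rw [hmxb, mx_z hb2 hy2 hco] at hmx
          obtain ⟨hYb, hu⟩ : b₀ = b ∧ bot (ps T C) C = bot (ps T C) y := by
            apply labSep hS (bot_ne _ _) (bot_ne _ _) (fun q => base_T) huT hw hY hlab (mu_pos hC) (mu_pos hy2) hmu hm
            apply Nat.eq_of_mul_eq_mul_right hmC
            calc mu T y * b * mx T b₀ * mx T C = (mu T y * mx T C) * (b * mx T b₀) := by ring
              _ = (mu T C * mx T y) * (b * mx T b₀) := by rw [hmp]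
              _ = mu T C * (b * mx T y * mx T b₀) := by ring
              _ = mu T C * (mx T C * b₀ * mx T b) := by rw [hmx]
              _ = _ := by ring
          subst hYb
          have hmy : mx T y = mx T C := by
            have h5 : 0 < b₀ * mx T b₀ := Nat.mul_pos (by omega) (mx_pos hlab.2.1)
            apply Nat.eq_of_mul_eq_mul_right h5
            calc mx T y * (b₀ * mx T b₀) = b₀ * mx T y * mx T b₀ := by ring
              _ = mx T C * b₀ * mx T b₀ := hmx
              _ = _ := by ring
          refine Or.inl ⟨?_, ?_⟩
          · apply Nat.eq_of_factorization_eq (by omega) (by omega)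
            intro q
            by_cases hq : q ∈ ps T C
            · have h5 := hpr' q hq
              rw [hmy] at h5
              exact Nat.eq_of_mul_eq_mul_right hmC h5
            · rw [← bot_out y hq, ← bot_out C hq, hu]
          · rw [← hu] at hw
            have h6 := hE _ l' hw
            obtain ⟨k, hk⟩ := hl
            obtain ⟨k', hk'⟩ := h6
            exact ⟨k - k', by omega⟩

/-- decomposition of a walk into the data of `state` at both ends -/
theorem split {M a b l : ℕ} (hS : Sep T M) (hE : Evn T M) (h : Wk (Ec T) (Qd T (M + 1)) a b l) :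
    ∃ C l1 l2, (ps T C).Nonempty ∧ St T M C a l1 ∧ St T M C b l2 ∧ l = l1 + l2 := by
  obtain ⟨c, l1, l2, h1, h2, hl⟩ := h.exists_min (fun n => (ps T n).card)
  have hc : (ps T c).Nonempty := h1.left.1.1
  exact ⟨c, l1, l2, hc, state hc hS hE h1, state hc hS hE h2, hl⟩

/-- A prime whose exponent in `t` is not small divides all numbers of a walk which ends in `t`. -/
theorem topKey {M Y t l p : ℕ} (hS : Sep T M) (hE : Evn T M) (hw : Wk (Ec T) (Qd T M) Y t l)
    (hp : p ∈ ps T t) (h4 : mx T t ≤ 4 * t.factorization p) :
    (mx T Y).factorization p = (mx T t).factorization p := by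
  rcases Nat.eq_zero_or_pos M with hM | hM
  · exfalso
    have h5 := hw.right
    have := Finset.card_pos.mpr h5.1
    have := h5.2
    omega
  obtain ⟨M', rfl⟩ : ∃ M', M = M' + 1 := ⟨M - 1, by omega⟩
  obtain ⟨C, l1, l2, hC, h1, h2, -⟩ := split (hS.mono (Nat.le_succ M')) (hE.mono (Nat.le_succ M')) hw
  have hpC : p ∈ ps T C := by
    rcases h2 with ⟨h, -⟩ | ⟨hs2, -, -, -, Z, l', hZl, -, -, hwz, -, hmx⟩
    · rw [← h]; exact hp
    · by_contra hcon
      have e1 : t.factorization p ≤ mx T (bot (ps T C) t) := by
        rw [← bot_out t hcon]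
        exact le_mx (mem_ps.mp hp).2
      have e2 := four_mx hZl.1 hZl.2.1
      have e3 := mx_pos hC
      have e5 := mx_pos hs2
      have e6 : Z * mx T (bot (ps T C) t) ≤ mx T t * mx T Z := by
        rw [hmx]
        calc Z * mx T (bot (ps T C) t) = 1 * (Z * mx T (bot (ps T C) t)) := by ring
          _ ≤ mx T C * (Z * mx T (bot (ps T C) t)) := Nat.mul_le_mul_right _ e3
          _ = _ := by ring
      have e7 : (4 * mx T Z) * mx T (bot (ps T C) t) < Z * mx T (bot (ps T C) t) :=
        Nat.mul_lt_mul_of_pos_right e2 e5
      have e8 : 4 * mx T (bot (ps T C) t) * mx T Z < mx T t * mx T Z := by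
        calc 4 * mx T (bot (ps T C) t) * mx T Z = (4 * mx T Z) * mx T (bot (ps T C) t) := by ring
          _ < _ := lt_of_lt_of_le e7 e6
      have e9 := Nat.lt_of_mul_lt_mul_right e8
      omega
  have key : ∀ n l, St T M' C n l → (mx T n).factorization p = (mx T C).factorization p := by
    intro n l h
    rcases h with ⟨h, -⟩ | ⟨-, -, -, h, -⟩
    · rw [h]
    · exact h p hpC
  rw [key Y l1 h1, key t l2 h2]

end PRF3
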