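import Mathlib
import Pool.Agent.PRF3.T3

/-!
# The induction and the two-colouring
-/

namespace PRF3

open PRF PRF.TGap PRF2

variable {T : Set ℕ}

theorem top_of_walk {M Y t l : ℕ} (hw : Wk (Ec T) (Qd T M) Y t l) {p : ℕ} (hpT : p ∉ T)
    (hp : t.factorization p = mx T t) :
    Y.factorization p = mx T Y ∧ (mx T Y).factorization p = (mx T t).factorization p := by
  obtain ⟨i1, i2, -⟩ := walk_inv hw
  have h1 := (i1 p hpT).mpr hp
  exact ⟨h1, i2 hw.left.1 p hpT h1⟩

/-- comparison of two walks which end in numbers with `e' t' = e t` outside `T` -/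
theorem topLe {M b b' u u' t t' l l' e e' : ℕ} (hS : Sep T M) (hE : Evn T M) (hu : u ≠ 0) (hu' : u' ≠ 0)
    (huT : ∀ q, q ∉ T → u.factorization q = 0) (huT' : ∀ q, q ∉ T → u'.factorization q = 0)
    (hw : Wk (Ec T) (Qd T M) (u ^ b * b) t l) (hw' : Wk (Ec T) (Qd T M) (u' ^ b' * b') t' l')
    (hb : Lab T b) (hb' : Lab T b') (he : 0 < e) (he' : 0 < e') (het : e ≤ mu T t) (het' : e' ≤ mu T t')
    (hf : ∀ q, q ∉ T → e'.factorization q + t'.factorization q = e.factorization q + t.factorization q)
    (hst : b * mx T t * mx T b' = b' * mx T t' * mx T b) :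
    mx T b ≤ mx T b' ∧ (mx T t ≤ mx T t' → 2 ^ (mx T t' - mx T t) ≤ mx T t') := by
  have ht := hw.right.1
  have ht' := hw'.right.1
  have hb0 : b ≠ 0 := by have := hb.1; omega
  have hb0' : b' ≠ 0 := by have := hb'.1; omega
  obtain ⟨p, hp, hpt⟩ := exists_top ht
  obtain ⟨p', hp', hpt'⟩ := exists_top ht'
  have hpT := (mem_ps.mp hp).2
  have hpT' := (mem_ps.mp hp').2
  have hmt := mx_pos ht
  have hmt' := mx_pos ht'
  have i1 := hf p hpT
  have i2 := hf p' hpT'
  rw [hpt] at i1
  rw [hpt'] at i2
  have j1 := le_mx (n := t) hpT'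
  have j2 := two_pow_f (show e ≠ 0 by omega) p'
  have j3 := f_lt (show e ≠ 0 by omega) p'
  have j4 := mu_le_mx ht
  have j5 := two_pow_f (show e' ≠ 0 by omega) p
  have j6 := mu_le_mx ht'
  have hlt2 : mx T t' < 2 * mx T t := by omega
  -- the prime `p` divides `t'`
  have hpt2 : p ∈ ps T t' := by
    apply ps_of_pos _ hpT
    by_contra hcon
    have h0 : t'.factorization p = 0 := by omega
    have h1 : mx T t ≤ e'.factorization p := by omega
    have h2 : 2 ^ mx T t ≤ e' := (Nat.pow_le_pow_right (by norm_num) h1).trans j5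
    obtain ⟨v, hv⟩ : ∃ v, mx T t = v + 1 := ⟨mx T t - 1, by omega⟩
    have h3 : v < 2 ^ v := Nat.lt_two_pow_self
    rw [hv, pow_succ] at h2
    omega
  have j7 : e' ≤ t'.factorization p := het'.trans (mu_le hpt2)
  have j8 := f_lt (show e' ≠ 0 by omega) p
  have h4 : mx T t' ≤ 4 * t'.factorization p := by omega
  have k1 := topKey hS hE hw' hpt2 h4
  obtain ⟨k2, k3⟩ := top_of_walk hw hpT hpt
  rw [base_f hu huT hb0 hpT] at k2
  rw [base_mx hu huT hb0] at k2 k3
  rw [base_mx hu' huT' hb0'] at k1
  constructor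
  · have h5 := congrArg (fun n => n.factorization p) hst
    have e1 := mx_pos hb.2.1
    have e2 := mx_pos hb'.2.1
    have z1 : b * mx T t ≠ 0 := mul_ne_zero (by omega) (by omega)
    have z2 : b' * mx T t' ≠ 0 := mul_ne_zero (by omega) (by omega)
    rw [Nat.factorization_mul z1 (by omega), Nat.factorization_mul z2 (by omega),
      Nat.factorization_mul (by omega) (by omega), Nat.factorization_mul (by omega) (by omega)] at h5
    simp only [Finsupp.add_apply] at h5
    rw [k1, k3, k2] at h5
    have h6 : mx T b = b'.factorization p := by omega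
    rw [h6]
    exact le_mx hpT
  · intro hle
    refine (Nat.pow_le_pow_right (by norm_num) (show mx T t' - mx T t ≤ e.factorization p' by omega)).trans ?_
    omega

theorem sep_step {M : ℕ} (hS : Sep T M) (hE : Evn T M) : Sep T (M + 1) := by
  intro x x' l hw hV e e' he he' hex hex' hf
  have hx := hw.left.1
  have hx' := hw.right.1
  have hx0 := ps_ne hx
  have hx0' := ps_ne hx'
  have hmx := mx_pos hx
  have hmx' := mx_pos hx'
  obtain ⟨C, l1, l2, hC, h1, h2, -⟩ := split hS hE hw
  have hmC := mx_pos hC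
  have hST : ∀ q ∈ ps T C, q ∉ T := fun q hq => (mem_ps.mp hq).2
  -- the mixed case
  have hmix : ∀ n, mx T n = mx T C → ¬ ((ps T (bot (ps T C) n)).Nonempty ∧ ∃ b : ℕ, Lab T b ∧
      mx T n * mx T b = mx T C * b * mx T (bot (ps T C) n)) := by
    rintro n hn ⟨hb, b, hlab, hm⟩
    have e1 := mx_lt hlab.2.1
    have e2 := mx_pos hb
    rw [hn, mul_assoc] at hm
    have h3 := Nat.eq_of_mul_eq_mul_left hmC hm
    have h4 : b * 1 ≤ b * mx T (bot (ps T C) n) := Nat.mul_le_mul_left b e2
    omega
  rcases h1 with ⟨h1, -⟩ | ⟨hb1, hpr1, hord1, -, b, k1, hY, hc1, hmu1, hw1, -, hm1⟩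
  · rcases h2 with ⟨h2, -⟩ | ⟨hb2, hpr2, hord2, -, b', k2, hY', hc2, hmu2, hw2, -, hm2⟩
    · rw [h1, h2]
    · exact absurd ⟨hb2, b', hY', hm2⟩ (hmix x' (by rw [← hV, h1]))
  · rcases h2 with ⟨h2, -⟩ | ⟨hb2, hpr2, hord2, -, b', k2, hY', hc2, hmu2, hw2, -, hm2⟩
    · exact absurd ⟨hb1, b, hY, hm1⟩ (hmix x (by rw [hV, h2]))
    · -- both are nontrivial
      have hin : ∀ q ∈ ps T C, x.factorization q = x'.factorization q := by
        intro q hq
        have e1 := hpr1 q hq
        have e2 := hpr2 q hq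
        rw [hV, ← e2] at e1
        exact Nat.eq_of_mul_eq_mul_right hmC e1
      set t := bot (ps T C) x with ht
      set t' := bot (ps T C) x' with ht'
      have ht2 : ∀ q, q ∉ T → e'.factorization q + t'.factorization q = e.factorization q + t.factorization q := by
        intro q hqT
        have h3 := hf q hqT
        by_cases hq : q ∈ ps T C
        · rw [ht, ht', bot_in _ hq, bot_in _ hq]
          have := hin q hq
          omega
        · rw [ht, ht', bot_out _ hq, bot_out _ hq]
          exact h3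
      have hst : b * mx T t * mx T b' = b' * mx T t' * mx T b := by
        apply Nat.eq_of_mul_eq_mul_left hmC
        calc mx T C * (b * mx T t * mx T b') = (mx T C * b * mx T t) * mx T b' := by ring
          _ = (mx T x * mx T b) * mx T b' := by rw [hm1]
          _ = (mx T x' * mx T b') * mx T b := by rw [hV]; ring
          _ = (mx T C * b' * mx T t') * mx T b := by rw [hm2]
          _ = _ := by ring
      have het : e ≤ mu T t := by rw [ht, bot_mu hb1 hord1]; exact hex
      have het' : e' ≤ mu T t' := by rw [ht', bot_mu hb2 hord2]; exact hex'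
      obtain ⟨a1, a2⟩ := topLe hS hE (bot_ne _ _) (bot_ne _ _) (fun q => base_T) (fun q => base_T) hw1 hw2 hY hY'
        he he' het het' ht2 hst
      obtain ⟨b1, b2⟩ := topLe hS hE (bot_ne _ _) (bot_ne _ _) (fun q => base_T) (fun q => base_T) hw2 hw1 hY' hY
        he' he het' het (fun q hq => (ht2 q hq).symm) hst.symm
      have hVY : mx T b = mx T b' := le_antisymm a1 b1
      have hmY := mx_pos hY.2.1
      have hst2 : b * mx T t = b' * mx T t' := by
        rw [hVY] at hst
        exact Nat.eq_of_mul_eq_mul_right (by omega) hst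
      obtain ⟨D, P, R, hD, hP, hR⟩ := con_two hC hc1 hc2
      have hb64 := hY.1
      have hb64' := hY'.1
      have hP0 : 0 < P := by
        apply Nat.pos_of_ne_zero
        rintro rfl
        rw [zero_pow (by omega)] at hP
        omega
      have hR0 : 0 < R := by
        apply Nat.pos_of_ne_zero
        rintro rfl
        rw [zero_pow (by omega)] at hR
        omega
      have hrat : mx T t * P ^ D = mx T t' * R ^ D := by
        rw [← hP, ← hR, mul_comm, hst2, mul_comm]
      have hVt : mx T t = mx T t' := by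
        rcases le_total (mx T t) (mx T t') with hle | hle
        · exact near hD (mx_pos hb1) hR0 hP0 hrat hle (a2 hle)
        · exact (near hD (mx_pos hb2) hP0 hR0 hrat.symm hle (b2 hle)).symm
      have hYY : b = b' := by
        rw [hVt] at hst2
        exact Nat.eq_of_mul_eq_mul_right (mx_pos hb2) hst2
      subst hYY
      have htt : t = t' := hS t t' _ (hw1.symm.trans hw2) hVt e e' he he' het het' ht2
      apply Nat.eq_of_factorization_eq (by omega) (by omega)
      intro q
      by_cases hq : q ∈ ps T C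
      · exact hin q hq
      · rw [← bot_out x hq, ← bot_out x' hq, ← ht, ← ht', htt]

theorem evn_step {M : ℕ} (hS : Sep T M) (hE : Evn T M) : Evn T (M + 1) := by
  intro x l hw
  obtain ⟨C, l1, l2, hC, h1, h2, hl⟩ := split hS hE hw
  have hbC : ¬ (ps T (bot (ps T C) C)).Nonempty := by
    rintro ⟨q, hq⟩
    have h3 := ps_pos hq
    rw [base_T (mem_ps.mp hq).2] at h3
    omega
  rcases h1 with ⟨h1, hl1⟩ | ⟨hb1, hpr1, hord1, -, b, k1, hY, hc1, hmu1, hw1, hl1, hm1⟩
  · rcases h2 with ⟨h2, hl2⟩ | ⟨hb2, hpr2, hord2, -, b', k2, hY', hc2, hmu2, hw2, hl2, hm2⟩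
    · rw [hl]; exact hl1.add hl2
    · exfalso
      rw [h1] at hb2
      exact hbC hb2
  · rcases h2 with ⟨h2, hl2⟩ | ⟨hb2, hpr2, hord2, -, b', k2, hY', hc2, hmu2, hw2, hl2, hm2⟩
    · exfalso
      rw [h2] at hb1
      exact hbC hb1
    · have hmC := mx_pos hC
      obtain ⟨hYY, -⟩ : b = b' ∧ bot (ps T C) C = bot (ps T C) C := by
        apply labSep hS (bot_ne _ _) (bot_ne _ _) (fun q => base_T) (fun q => base_T) (hw1.trans hw2.symm) hY hY'
          one_pos one_pos (mu_pos hY.2.1) (mu_pos hY'.2.1)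
        have h5 : 0 < mx T C * mx T (bot (ps T C) x) := Nat.mul_pos hmC (mx_pos hb1)
        apply Nat.eq_of_mul_eq_mul_right h5
        calc 1 * b' * mx T b * (mx T C * mx T (bot (ps T C) x))
            = (mx T C * b' * mx T (bot (ps T C) x)) * mx T b := by ring
          _ = (mx T x * mx T b') * mx T b := by rw [hm2]
          _ = (mx T x * mx T b) * mx T b' := by ring
          _ = (mx T C * b * mx T (bot (ps T C) x)) * mx T b' := by rw [hm1]
          _ = _ := by ring
      subst hYY
      have h8 := hE _ _ (hw1.trans hw2.symm)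
      obtain ⟨u1, hu1⟩ := hl1
      obtain ⟨u2, hu2⟩ := hl2
      obtain ⟨u3, hu3⟩ := h8
      exact ⟨u1 + u2 - u3 - 1, by omega⟩

theorem main (M : ℕ) : Sep T M ∧ Evn T M := by
  induction M with
  | zero =>
    constructor
    · intro x x' l h
      exfalso
      have := h.left.2
      have := Finset.card_pos.mpr h.left.1
      omega
    · intro x l h
      exfalso
      have := h.left.2
      have := Finset.card_pos.mpr h.left.1
      omega
  | succ M ih => exact ⟨sep_step ih.1 ih.2, evn_step ih.1 ih.2⟩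

theorem wk_of_walk {G : SimpleGraph ℕ} {R : ℕ → ℕ → Prop} (hG : ∀ a b, G.Adj a b → R a b ∨ R b a)
    (hR : ∀ a b, R a b → (ps T a).Nonempty ∧ (ps T b).Nonempty) {a b : ℕ} (w : G.Walk a b)
    (ha : (ps T a).Nonempty) : ∃ M, Wk R (Qd T M) a b w.length := by
  induction w with
  | nil => exact ⟨_, Wk.refl ⟨ha, le_rfl⟩⟩
  | @cons a b c h w ih =>
    have h1 := hG _ _ h
    have hb : (ps T b).Nonempty := by
      rcases h1 with h1 | h1
      · exact (hR _ _ h1).2
      · exact (hR _ _ h1).1
    obtain ⟨M, hM⟩ := ih hb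
    refine ⟨M + (ps T a).card, ?_⟩
    have h2 : Wk R (Qd T (M + (ps T a).card)) b c w.length := hM.mono (fun n hn => ⟨hn.1, by
      have := hn.2
      omega⟩)
    have h3 : Wk R (Qd T (M + (ps T a).card)) a b 1 :=
      Wk.step a b 0 (Wk.refl ⟨ha, by omega⟩) h1 h2.left
    have h4 := h3.trans h2
    rw [SimpleGraph.Walk.length_cons, add_comm w.length 1]
    exact h4

theorem ec_ne {x n : ℕ} (h : Ec T x n) : (ps T x).Nonempty ∧ (ps T n).Nonempty := by
  obtain ⟨b, hx, ⟨hb, hb', -⟩, -, -, -, rfl⟩ := h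
  have := ps_ne hx
  exact ⟨hx, ne_z (by omega) (by omega) hb'⟩

/-- the two-colouring -/
theorem two_col (T : Set ℕ) : ∃ f : ℕ → Fin 2, ∀ x n, Ec T x n → f x ≠ f n := by
  classical
  have hne : ∀ x n, Ec T x n → x ≠ n := by
    rintro x n ⟨b, hx, ⟨hb, hb', -⟩, hco, -, -, hn⟩ h
    have h0 := ps_ne hx
    have h1 := card_z (T := T) (x := x) (b := b) (by omega) (by omega) hco
    rw [← hn, ← h] at h1
    have := Finset.card_pos.mpr hb'
    omega
  let G : SimpleGraph ℕ := SimpleGraph.fromRel (Ec T)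
  have hG : ∀ a b, G.Adj a b → Ec T a b ∨ Ec T b a := fun a b hab => by
    rw [SimpleGraph.fromRel_adj] at hab
    exact hab.2
  have h2 : G.Colorable 2 := by
    rw [SimpleGraph.two_colorable_iff_forall_loop_even]
    intro a w
    by_cases ha : (ps T a).Nonempty
    · obtain ⟨M, hM⟩ := wk_of_walk hG (fun _ _ h => ec_ne h) w ha
      exact (main M).2 a _ hM
    · cases w with
      | nil => exact Even.zero
      | cons h0 w =>
        exfalso
        rcases hG _ _ h0 with h1 | h1
        · exact ha (ec_ne h1).1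
        · exact ha (ec_ne h1).2
  obtain ⟨col⟩ := h2
  refine ⟨col, fun x n hxn => ?_⟩
  exact col.valid (by rw [SimpleGraph.fromRel_adj]; exact ⟨hne x n hxn, Or.inl hxn⟩)

end PRF3
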