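import Mathlib
import Pool.Agent.PRF3.T4
import Pool.Agent.PRF2.Many
import Pool.Agent.PRF2.Rad
import Pool.Agent.Hhelper34.Cop.Basic

/-!
# The least exponent outside `T`, and powers
-/

namespace PRF3

open PRF PRF.TGap PRF2

variable {T : Set ℕ}

/-- the least prime factor outside `T` with the least exponent -/
noncomputable def mp (T : Set ℕ) (n : ℕ) : ℕ := sInf {q | q ∈ ps T n ∧ n.factorization q = mu T n}

theorem mp_mem {n : ℕ} (hn : (ps T n).Nonempty) : mp T n ∈ ps T n ∧ n.factorization (mp T n) = mu T n := by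
  obtain ⟨q, hq, h⟩ := mu_mem hn
  exact Nat.sInf_mem (s := {q | q ∈ ps T n ∧ n.factorization q = mu T n}) ⟨q, hq, h.symm⟩

theorem mp_congr {m n : ℕ} (h : ∀ q, (q ∈ ps T m ∧ m.factorization q = mu T m) ↔
    (q ∈ ps T n ∧ n.factorization q = mu T n)) : mp T m = mp T n := by
  unfold mp
  congr 1
  ext q
  exact h q

theorem ps_ab {a b : ℕ} (ha : 1 < a) (hb : 1 < b) : ps T (a * b) = ps T a ∪ ps T b := by
  ext q
  rw [Finset.mem_union, mem_ps, mem_ps, mem_ps, Nat.primeFactors_mul (by omega) (by omega), Finset.mem_union]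
  tauto

theorem ps_pow {a b : ℕ} (hb : b ≠ 0) : ps T (a ^ b) = ps T a := by
  ext q
  rw [mem_ps, mem_ps, Nat.primeFactors_pow _ hb]

theorem mu_pow {a b : ℕ} (hb : b ≠ 0) (ha : (ps T a).Nonempty) : mu T (a ^ b) = b * mu T a := by
  obtain ⟨s, hs, hse⟩ := mu_mem ha
  obtain ⟨s', hs', hse'⟩ := mu_mem (T := T) (n := a ^ b) (by rw [ps_pow hb]; exact ha)
  rw [ps_pow hb] at hs'
  rw [Nat.factorization_pow, Finsupp.smul_apply, smul_eq_mul] at hse'
  apply le_antisymm
  · have e1 := mu_le (T := T) (n := a ^ b) (q := s) (by rw [ps_pow hb]; exact hs)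
    rw [Nat.factorization_pow, Finsupp.smul_apply, smul_eq_mul, ← hse] at e1
    exact e1
  · rw [hse']
    exact Nat.mul_le_mul_left b (mu_le hs')

theorem low (k : ℕ) : ∃ r : ℕ, ∀ T : Set ℕ, ∃ c : ℕ → Fin r, ∀ a b : ℕ, 1 < a → 1 < b →
    c a = c b → c a = c (a * b) → c a = c (a ^ b) → c a = c (a ^ b * b) →
    CoT T a b → (ps T b).Nonempty → (ps T a).Nonempty ∧ mu T a ≤ mu T b ∧ tower k (mu T a) < b := by
  classical
  obtain ⟨r₀, hr₀⟩ := Pool.Agent.Results.MP_1b773e_co.CommonData.result (1 / 4) (by norm_num)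
  obtain ⟨c₁, hc₁⟩ := level (k + 2)
  refine ⟨Fintype.card (Fin r₀ × (Fin (k + 2 + 1) × Bool)), fun T => ?_⟩
  obtain ⟨c₀, hc₀⟩ := hr₀ (ℕ × ℕ) (fun n => (mp T n, mu T n)) wt
  let f : ℕ → Fin r₀ × (Fin (k + 2 + 1) × Bool) := fun n => (c₀ n, (c₁ (mu T n), decide (ps T n).Nonempty))
  refine ⟨fun n => Fintype.equivFin _ (f n), ?_⟩
  intro a b ha hb h1 h2 h3 h4 hco hbn
  have g1 : f a = f b := (Fintype.equivFin _).injective h1
  have g2 : f a = f (a * b) := (Fintype.equivFin _).injective h2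
  have g3 : f a = f (a ^ b) := (Fintype.equivFin _).injective h3
  have g4 : f a = f (a ^ b * b) := (Fintype.equivFin _).injective h4
  have p0 : ∀ {x y : ℕ}, f x = f y → c₀ x = c₀ y := fun h => congrArg (fun z => z.1) h
  have p1 : ∀ {x y : ℕ}, f x = f y → c₁ (mu T x) = c₁ (mu T y) := fun h => congrArg (fun z => z.2.1) h
  have p2 : ∀ {x y : ℕ}, f x = f y → ((ps T x).Nonempty ↔ (ps T y).Nonempty) := fun {x y} h => by
    have h5 : decide (ps T x).Nonempty = decide (ps T y).Nonempty := congrArg (fun z => z.2.2) h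
    exact decide_eq_decide.mp h5
  have han : (ps T a).Nonempty := (p2 g1).mpr hbn
  have hS : ps T (a * b) = ps T a ∪ ps T b := ps_ab ha hb
  have hS' : ps T (a ^ b * b) = ps T a ∪ ps T b := ps_z (by omega) (by omega)
  have hab : (ps T (a * b)).Nonempty := by rw [hS]; exact han.mono Finset.subset_union_left
  have hz2 : (ps T (a ^ b * b)).Nonempty := by rw [hS']; exact han.mono Finset.subset_union_left
  have hlog : ∀ q, 2 ^ b.factorization q ≤ b := fun q => two_pow_f (by omega) q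
  have hzp : ∀ q, q ∉ ps T a → q ∉ T → (a ^ b * b).factorization q = b.factorization q := by
    intro q hq hqT
    rw [fz' (by omega) (by omega), fz0 (fun h => hq (mem_ps.mpr ⟨h, hqT⟩)), mul_zero, zero_add]
  have habp : ∀ q, q ∉ ps T a → q ∉ T → (a * b).factorization q = b.factorization q := by
    intro q hq hqT
    rw [f_ab ha hb, fz0 (fun h => hq (mem_ps.mpr ⟨h, hqT⟩)), zero_add]
  have haba : ∀ q, q ∈ ps T a → (a * b).factorization q = a.factorization q := by
    intro q hq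
    rw [f_ab ha hb, co_b hco hq, add_zero]
  have hzo : ∀ q, q ∈ ps T a → b ≤ (a ^ b * b).factorization q := by
    intro q hq
    rw [fz' (by omega) (by omega)]
    exact (Nat.le_mul_of_pos_right b (ps_pos hq)).trans (Nat.le_add_right _ _)
  have hbb : ∀ q, q ∈ ps T b → q ∉ ps T a := by
    intro q hq hqa
    have := co_b hco hqa
    have := ps_pos hq
    omega
  -- the least exponent of `b` is the least exponent of `a ^ b * b`
  have hν : mu T (a ^ b * b) = mu T b := by
    apply le_antisymm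
    · obtain ⟨q, hq, h5⟩ := mu_mem hbn
      rw [h5, ← hzp q (hbb q hq) (mem_ps.mp hq).2]
      exact mu_le (by rw [hS']; exact Finset.mem_union_right _ hq)
    · obtain ⟨q, hq, h5⟩ := mu_mem hz2
      rw [hS', Finset.mem_union] at hq
      rcases hq with hq | hq
      · obtain ⟨q', hq', h6⟩ := mu_mem hbn
        have e1 := hzo q hq
        have e2 := f_lt (n := b) (by omega) q'
        omega
      · rw [h5, hzp q (hbb q hq) (mem_ps.mp hq).2]
        exact mu_le hq
  have hνb : mu T b < b := lt_of_le_of_lt (mu_le_mx hbn) (mx_lt hbn)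
  have h2ν : 2 ^ mu T b ≤ b := by
    obtain ⟨q, -, h5⟩ := mu_mem hbn
    rw [h5]
    exact hlog q
  -- the least exponent of `ab` belongs to a prime factor of `a`
  have hle : mu T a ≤ mu T b := by
    by_contra hcon
    push Not at hcon
    have hlt : ∀ q, q ∈ ps T a → mu T b < (a * b).factorization q := by
      intro q hq
      rw [haba q hq]
      exact lt_of_lt_of_le hcon (mu_le hq)
    have hmu : mu T (a * b) = mu T b := by
      apply le_antisymm
      · obtain ⟨q, hq, h5⟩ := mu_mem hbn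
        rw [h5, ← habp q (hbb q hq) (mem_ps.mp hq).2]
        exact mu_le (by rw [hS]; exact Finset.mem_union_right _ hq)
      · obtain ⟨q, hq, h5⟩ := mu_mem hab
        rw [hS, Finset.mem_union] at hq
        rcases hq with hq | hq
        · rw [h5]
          exact (hlt q hq).le
        · rw [h5, habp q (hbb q hq) (mem_ps.mp hq).2]
          exact mu_le hq
    have hmp : mp T (a * b) = mp T (a ^ b * b) := by
      apply mp_congr
      intro q
      rw [hmu, hν, hS, hS']
      by_cases hqa : q ∈ ps T a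
      · have e1 := hlt q hqa
        have e2 := hzo q hqa
        constructor
        · rintro ⟨-, h⟩; omega
        · rintro ⟨-, h⟩; omega
      · constructor
        · rintro ⟨h5, h6⟩
          have hqT : q ∉ T := by
            rcases Finset.mem_union.mp h5 with h | h
            · exact (mem_ps.mp h).2
            · exact (mem_ps.mp h).2
          exact ⟨h5, by rw [hzp q hqa hqT, ← habp q hqa hqT]; exact h6⟩
        · rintro ⟨h5, h6⟩
          have hqT : q ∉ T := by
            rcases Finset.mem_union.mp h5 with h | h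
            · exact (mem_ps.mp h).2
            · exact (mem_ps.mp h).2
          exact ⟨h5, by rw [habp q hqa hqT, ← hzp q hqa hqT]; exact h6⟩
    obtain ⟨u1, u2⟩ := mp_mem hz2
    have hQa : mp T (a ^ b * b) ∉ ps T a := by
      intro h
      have := hzo _ h
      omega
    have hQT : mp T (a ^ b * b) ∉ T := (mem_ps.mp u1).2
    have hQb : mp T (a ^ b * b) ∈ b.primeFactors := by
      rw [hS', Finset.mem_union] at u1
      exact (mem_ps.mp (u1.resolve_left hQa)).1
    obtain ⟨m, hm⟩ := hc₀ a b ha hb (p0 g1) (p0 g2) (p0 g3) (p0 g4) (by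
      rw [hmp, hmu, hν])
    change |Pool.Agent.Results.MP_1b773e_co.CommonData.additive (wt (mp T (a * b), mu T (a * b))) b - m| < 1 / 4 at hm
    rw [hmp, hmu, additive_wt hQb] at hm
    have e5 : b.factorization (mp T (a ^ b * b)) = mu T b := by
      rw [← hzp _ hQa hQT, ← hν]
      exact u2
    have := two_le_two_pow (mu T b) (mu_pos hbn) m
    rw [e5] at hm
    linarith
  refine ⟨han, hle, ?_⟩
  have hμa1 := mu_pos han
  have hμw := mu_pow (T := T) (a := a) (b := b) (by omega) han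
  have hle2 : mu T (a ^ b) ≤ b * b := by rw [hμw]; exact Nat.mul_le_mul_left b (by omega)
  have hge : b ≤ mu T (a ^ b) := by rw [hμw]; exact Nat.le_mul_of_pos_right b hμa1
  apply level_sq hle2
  apply hc₁ _ _ ((Nat.pow_le_pow_right (by norm_num) hle).trans (h2ν.trans hge))
  exact p1 g3

/-- `a` and `b` are powers with a common exponent -/
theorem own : ∃ r : ℕ, ∀ T : Set ℕ, ∃ c : ℕ → Fin r, ∀ a b : ℕ, 1 < a → 1 < b →
    c a = c b → c a = c (a * b) → c a = c (a ^ b) → c a = c (a ^ b * b) →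
    CoT T a b → (ps T b).Nonempty → (ps T a).Nonempty ∧ mu T a ≤ mu T b ∧ Con T a b := by
  classical
  obtain ⟨r, hr⟩ := low 5
  refine ⟨Fintype.card (Fin r × Bool), fun T => ?_⟩
  obtain ⟨c, hc⟩ := hr T
  let P : ℕ → Prop := fun n => ∃ s m : ℕ, n = s ^ m ∧ ∃ q ∈ ps T s, tower 5 (s.factorization q) < m
  let f : ℕ → Fin r × Bool := fun n => (c n, decide (P n))
  refine ⟨fun n => Fintype.equivFin _ (f n), ?_⟩
  intro a b ha hb h1 h2 h3 h4 hco hbn
  have g1 : f a = f b := (Fintype.equivFin _).injective h1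
  have g2 : f a = f (a * b) := (Fintype.equivFin _).injective h2
  have g3 : f a = f (a ^ b) := (Fintype.equivFin _).injective h3
  have g4 : f a = f (a ^ b * b) := (Fintype.equivFin _).injective h4
  have p0 : ∀ {x y : ℕ}, f x = f y → c x = c y := fun h => congrArg (fun z => z.1) h
  have p1 : ∀ {x x' : ℕ}, f x = f x' → (P x ↔ P x') := by
    intro x x' h
    have h5 : decide (P x) = decide (P x') := congrArg (fun z => z.2) h
    exact decide_eq_decide.mp h5
  obtain ⟨han, hle, hlt⟩ := hc a b ha hb (p0 g1) (p0 g2) (p0 g3) (p0 g4) hco hbn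
  refine ⟨han, hle, ?_⟩
  have hw : P (a ^ b) := by
    obtain ⟨q, hq, hq1⟩ := mu_mem han
    exact ⟨a, b, rfl, q, hq, by rw [← hq1]; exact hlt⟩
  have hA : P a := (p1 g3).mpr hw
  have hAB : P (a * b) := (p1 g2).mp hA
  have hμa := mu_pos han
  -- the exponents
  have hbound : ∀ n s m, n = s ^ m → 2 ≤ n → ∀ q ∈ ps T s, tower 5 (s.factorization q) < m →
      0 < m ∧ q ∈ ps T n ∧ n.factorization q = m * s.factorization q ∧
      s.factorization q ^ 4 < m ∧ 0 < s.factorization q := by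
    intro n s m hn hn2 q hq hlt'
    have hq0 := ps_pos hq
    have e1 := pow_le_tower 4 (show 1 ≤ s.factorization q by omega)
    have e2 : n.factorization q = m * s.factorization q := by
      rw [hn, Nat.factorization_pow, Finsupp.smul_apply, smul_eq_mul]
    have e3 : 0 < m := by omega
    refine ⟨e3, ?_, e2, lt_of_le_of_lt e1 hlt', hq0⟩
    apply ps_of_pos _ (mem_ps.mp hq).2
    rw [e2]
    exact Nat.mul_pos e3 hq0
  obtain ⟨s₁, m₁, hs₁, q₁, hq₁, ht₁⟩ := hA
  obtain ⟨s₂, m₂, hs₂, q₂, hq₂, ht₂⟩ := hAB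
  obtain ⟨hm₁, k1, k2, k3, k4⟩ := hbound a s₁ m₁ hs₁ ha q₁ hq₁ ht₁
  obtain ⟨hm₂, j1, j2, j3, j4⟩ := hbound (a * b) s₂ m₂ hs₂ (by nlinarith) q₂ hq₂ ht₂
  set t₁ := s₁.factorization q₁ with ht1
  set t₂ := s₂.factorization q₂ with ht2
  have v1 : mu T a ≤ m₁ * t₁ := by rw [← k2]; exact mu_le k1
  have v2 : mu T a ≤ m₂ * t₂ := by
    rw [← j2]
    rw [ps_ab ha hb, Finset.mem_union] at j1
    rw [f_ab ha hb]
    rcases j1 with h5 | h5
    · exact (mu_le h5).trans (Nat.le_add_right _ _)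
    · exact (hle.trans (mu_le h5)).trans (Nat.le_add_left _ _)
  obtain ⟨q, hq, hqe⟩ := mu_mem han
  have d1 : m₁ ∣ mu T a := by
    rw [hqe, hs₁, Nat.factorization_pow]
    exact Dvd.intro _ rfl
  have d2 : m₂ ∣ mu T a := by
    have e1 : (a * b).factorization q = a.factorization q := by rw [f_ab ha hb, co_b hco hq, add_zero]
    rw [hqe, ← e1, hs₂, Nat.factorization_pow]
    exact Dvd.intro _ rfl
  have hlcm : Nat.lcm m₁ m₂ ≤ mu T a := Nat.le_of_dvd (by omega) (Nat.lcm_dvd d1 d2)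
  have hgl := Nat.gcd_mul_lcm m₁ m₂
  set g := Nat.gcd m₁ m₂ with hg
  have hg0 : 0 < g := Nat.gcd_pos_of_pos_left _ hm₁
  have hgm1 : g ∣ m₁ := Nat.gcd_dvd_left _ _
  have hgm2 : g ∣ m₂ := Nat.gcd_dvd_right _ _
  have hga : ∃ s, a = s ^ g := by
    obtain ⟨u, hu⟩ := hgm1
    exact ⟨s₁ ^ u, by rw [← pow_mul, mul_comm u g, ← hu]; exact hs₁⟩
  have hgab : ∃ s, a * b = s ^ g := by
    obtain ⟨u, hu⟩ := hgm2
    exact ⟨s₂ ^ u, by rw [← pow_mul, mul_comm u g, ← hu]; exact hs₂⟩
  have hgb : ∃ s, b = s ^ g := by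
    apply Pool.Agent.Hhelper34.Cop.is_pow (by omega)
    intro r
    obtain ⟨s, hs⟩ := hga
    obtain ⟨s', hs'⟩ := hgab
    have e1 : g ∣ a.factorization r := by
      rw [hs, Nat.factorization_pow]
      exact Dvd.intro _ rfl
    have e2 : g ∣ (a * b).factorization r := by
      rw [hs', Nat.factorization_pow]
      exact Dvd.intro _ rfl
    rw [f_ab ha hb] at e2
    exact (Nat.dvd_add_right e1).mp e2
  refine ⟨g, hga, hgb, ?_⟩
  -- `g ^ 2 > mu a`
  have w1 : m₁ * m₂ ≤ g * mu T a := by rw [← hgl]; exact Nat.mul_le_mul_left g hlcm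
  by_contra hcon
  push Not at hcon
  set μ := mu T a with hμ
  have w2 : μ * μ ≤ g * μ * (t₁ * t₂) := by
    calc μ * μ ≤ (m₁ * t₁) * (m₂ * t₂) := Nat.mul_le_mul v1 v2
      _ = (m₁ * m₂) * (t₁ * t₂) := by ring
      _ ≤ g * μ * (t₁ * t₂) := Nat.mul_le_mul_right _ w1
  have w3 : μ ≤ g * (t₁ * t₂) := by
    have : μ * μ ≤ (g * (t₁ * t₂)) * μ := by
      calc μ * μ ≤ g * μ * (t₁ * t₂) := w2
        _ = _ := by ring
    exact Nat.le_of_mul_le_mul_right this (by omega)
  have m1le : m₁ ≤ μ := Nat.le_of_dvd (by omega) d1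
  have m2le : m₂ ≤ μ := Nat.le_of_dvd (by omega) d2
  have w4 : μ * μ ≤ (g * g) * (t₁ * t₂) ^ 2 := by
    calc μ * μ ≤ (g * (t₁ * t₂)) * (g * (t₁ * t₂)) := Nat.mul_le_mul w3 w3
      _ = _ := by ring
  have w5 : (t₁ * t₂) ^ 2 < μ := by
    rcases le_total t₁ t₂ with h5 | h5
    · calc (t₁ * t₂) ^ 2 ≤ (t₂ * t₂) ^ 2 := Nat.pow_le_pow_left (Nat.mul_le_mul_right _ h5) 2
        _ = t₂ ^ 4 := by ring
        _ < μ := lt_of_lt_of_le j3 m2le
    · calc (t₁ * t₂) ^ 2 ≤ (t₁ * t₁) ^ 2 := Nat.pow_le_pow_left (Nat.mul_le_mul_left _ h5) 2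
        _ = t₁ ^ 4 := by ring
        _ < μ := lt_of_lt_of_le k3 m1le
  have w6 : (g * g) * (t₁ * t₂) ^ 2 < μ * μ := by
    calc (g * g) * (t₁ * t₂) ^ 2 ≤ μ * (t₁ * t₂) ^ 2 := Nat.mul_le_mul_right _ hcon
      _ < μ * μ := Nat.mul_lt_mul_of_pos_left w5 (by omega)
  omega

end PRF3
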