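import Mathlib
import Pool.Agent.PRF3.T5

/-!
# The last steps for pairs whose common prime factors are in `T`
-/

namespace PRF3

open PRF PRF.TGap PRF2

variable {T : Set ℕ}

/-- `A` is the part of `a` outside `T` -/
def IsPt (T : Set ℕ) (a A : ℕ) : Prop := A ≠ 0 ∧ (∀ q, q ∉ T → A.factorization q = a.factorization q) ∧
  ∀ q, q ∈ T → A.factorization q = 0

theorem pt_ps {a A : ℕ} (h : IsPt T a A) : ps T a = A.primeFactors := by
  ext q
  constructor
  · intro hq
    apply mem_of_pos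
    rw [h.2.1 q (mem_ps.mp hq).2]
    exact ps_pos hq
  · intro hq
    have h1 : q ∉ T := fun hqT => by
      have := fpos hq
      rw [h.2.2 q hqT] at this
      omega
    apply ps_of_pos _ h1
    rw [← h.2.1 q h1]
    exact fpos hq

theorem pt_mx {a A : ℕ} (h : IsPt T a A) : mx T a = PRF2.mx A := by
  unfold mx PRF2.mx
  rw [pt_ps h]
  apply Finset.sup_congr rfl
  intro q hq
  rw [← pt_ps h] at hq
  exact (h.2.1 q (mem_ps.mp hq).2).symm

/-- the largest exponent of `A` is divisible by `N` if `A / x` is an `N`-th power -/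
theorem dvd_mx {A x s N : ℕ} (hx1 : 1 < x) (hxa : x < A) (hdvd : x ∣ A)
    (hco : x.Coprime (A / x)) (hs : A / x = s ^ N) (hN : x ≤ N) : N ∣ PRF2.mx A := by
  obtain ⟨y, hy⟩ := hdvd
  have hyx : A / x = y := by rw [hy, Nat.mul_div_cancel_left _ (by omega)]
  rw [hyx] at hco hs
  have hy1 : 1 < y := by
    rcases Nat.lt_or_ge 1 y with h | h
    · exact h
    · exfalso
      have h1 : x * y ≤ x * 1 := Nat.mul_le_mul_left x h
      omega
  have hfa : ∀ q, A.factorization q = x.factorization q + y.factorization q := by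
    intro q
    rw [hy, Nat.factorization_mul (by omega) (by omega), Finsupp.add_apply]
  have hfy : ∀ q, y.factorization q = N * s.factorization q := by
    intro q
    rw [hs, Nat.factorization_pow, Finsupp.smul_apply, smul_eq_mul]
  obtain ⟨p, hp, hpm⟩ := PRF2.exists_top (n := A) (by omega)
  have hpx : p ∉ x.primeFactors := by
    intro hpx
    have h0 : y.factorization p = 0 := fz0 fun h => Finset.disjoint_left.mp hco.disjoint_primeFactors hpx h
    have h1 : PRF2.mx A < x := by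
      rw [← hpm, hfa, h0, add_zero]
      exact f_lt (by omega) p
    obtain ⟨r, hr⟩ : ∃ r, r ∈ y.primeFactors := ⟨_, minFac_mem (n := y) (by omega)⟩
    have h2 := fpos hr
    have h3 : N ≤ y.factorization r := by
      apply Nat.le_of_dvd h2
      rw [hfy]
      exact Dvd.intro _ rfl
    have h5 := PRF2.le_mx A r
    rw [hfa] at h5
    omega
  have h0 : x.factorization p = 0 := fz0 hpx
  rw [← hpm, hfa, h0, zero_add, hfy]
  exact Dvd.intro _ rfl

/-- the divisibility property of labels -/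
def Lb (T : Set ℕ) (n : ℕ) : Prop := ∀ w, 0 < w → w ≤ mu T n * mu T n → ¬ mx T n ∣ n * w

/-- the divisibility property for `a` -/
theorem lb_a {a b A B x s : ℕ} (hA : IsPt T a A) (hB : IsPt T b B) (hab : CoT T a b)
    (hb : (ps T b).Nonempty) (hle : mu T a ≤ mu T b) (hx1 : 1 < x) (hxa : x < A) (hdvd : x ∣ A)
    (hco : x.Coprime (A / x)) (hs : A / x = s ^ (B * x ^ b) ^ 2) : Lb T a := by
  have hB1 : 1 < B := by
    obtain ⟨q, hq⟩ := hb
    rw [pt_ps hB] at hq
    have := Nat.le_of_mem_primeFactors hq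
    have := (Nat.prime_of_mem_primeFactors hq).two_le
    omega
  have hb0 : b ≠ 0 := by
    rintro rfl
    obtain ⟨q, hq⟩ := hb
    exact absurd (mem_ps.mp hq).1 (by simp)
  have hN : x ≤ (B * x ^ b) ^ 2 := by
    have h5 : x ≤ x ^ b := Nat.le_self_pow hb0 x
    have h6 : x ^ b ≤ B * x ^ b := Nat.le_mul_of_pos_left _ (by omega)
    exact (h5.trans h6).trans (Nat.le_self_pow (by norm_num) _)
  have h1 := dvd_mx hx1 hxa hdvd hco hs hN
  have h2 : B ^ 2 ∣ mx T a := by
    rw [pt_mx hA]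
    refine Dvd.dvd.trans ?_ h1
    rw [mul_pow]
    exact Dvd.intro _ rfl
  have hcop : Nat.Coprime (B ^ 2) a := by
    apply Nat.Coprime.pow_left
    apply Nat.Coprime.symm
    apply Nat.coprime_of_dvd
    intro p hp hpa hpB
    have h3 : p ∈ B.primeFactors := Nat.mem_primeFactors.mpr ⟨hp, hpB, by omega⟩
    rw [← pt_ps hB] at h3
    have h4 := co_x hab h3
    rcases Nat.eq_zero_or_pos a with h5 | h5
    · -- `a = 0` has no primes
      subst h5
      have h6 := hA.1
      have h7 : A.primeFactors = ∅ := by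
        rw [← pt_ps hA]
        unfold ps
        simp
      have h8 : A.minFac ∈ A.primeFactors := minFac_mem (by omega)
      rw [h7] at h8
      exact absurd h8 (by simp)
    · have h6 : p ∈ a.primeFactors := Nat.mem_primeFactors.mpr ⟨hp, hpa, by omega⟩
      have := fpos h6
      omega
  intro w hw hwle hdvd'
  have h7 : B ^ 2 ∣ w := hcop.dvd_of_dvd_mul_left (h2.trans hdvd')
  have h8 := Nat.le_of_dvd hw h7
  have hlt : mu T b < B := by
    refine lt_of_le_of_lt (mu_le_mx hb) ?_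
    rw [pt_mx hB]
    exact PRF2.mx_lt (by omega)
  have h9 : mu T a * mu T a < B * B := Nat.mul_lt_mul'' (lt_of_le_of_lt hle hlt) (lt_of_le_of_lt hle hlt)
  rw [pow_two] at h8
  omega

/-- the last step -/
theorem noneT (H : ∃ r : ℕ, ∀ T : Set ℕ, ∃ c : ℕ → Fin r, ∀ a b : ℕ, 1 < a → 1 < b →
    c a = c b → c a = c (a * b) → c a = c (a ^ b) → c a = c (a ^ b * b) →
    CoT T a b → (ps T b).Nonempty → ∃ A B x s, IsPt T a A ∧ IsPt T b B ∧ 1 < x ∧ x < A ∧ x ∣ A ∧
      x.Coprime (A / x) ∧ A / x = s ^ (B * x ^ b) ^ 2) :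
    ∃ r : ℕ, ∀ T : Set ℕ, ∃ c : ℕ → Fin r, ∀ a b : ℕ, 1 < a → 1 < b →
    CoT T a b → (ps T (a * b)).Nonempty →
    c a = c b → c a = c (a * b) → c a = c (a ^ b) → c a = c (a ^ b * b) → False := by
  classical
  obtain ⟨r₁, hr₁⟩ := own
  obtain ⟨r₂, hr₂⟩ := H
  let X := (Fin r₁ × Fin r₂) × ((Fin 65 × Bool) × (Bool × Fin 2))
  refine ⟨Fintype.card X, fun T => ?_⟩
  obtain ⟨c₁, hc₁⟩ := hr₁ T
  obtain ⟨c₂, hc₂⟩ := hr₂ T
  obtain ⟨g, hg⟩ := two_col T
  let f : ℕ → X := fun n => ((c₁ n, c₂ n), ((⟨min n 64, by omega⟩, decide (Lb T n)),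
    (decide (ps T n).Nonempty, g n)))
  refine ⟨fun n => Fintype.equivFin X (f n), ?_⟩
  intro a b ha hb hco hn h1 h2 h3 h4
  have g1 : f a = f b := (Fintype.equivFin X).injective h1
  have g2 : f a = f (a * b) := (Fintype.equivFin X).injective h2
  have g3 : f a = f (a ^ b) := (Fintype.equivFin X).injective h3
  have g4 : f a = f (a ^ b * b) := (Fintype.equivFin X).injective h4
  have p1 : ∀ {x y : ℕ}, f x = f y → c₁ x = c₁ y := fun h => congrArg (fun z => z.1.1) h
  have p2 : ∀ {x y : ℕ}, f x = f y → c₂ x = c₂ y := fun h => congrArg (fun z => z.1.2) h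
  have p3 : ∀ {x y : ℕ}, f x = f y → min x 64 = min y 64 := fun h => congrArg (fun z => z.2.1.1.val) h
  have p4 : ∀ {x y : ℕ}, f x = f y → (Lb T x ↔ Lb T y) := fun {x y} h => by
    have h5 : decide (Lb T x) = decide (Lb T y) := congrArg (fun z => z.2.1.2) h
    exact decide_eq_decide.mp h5
  have p5 : ∀ {x y : ℕ}, f x = f y → ((ps T x).Nonempty ↔ (ps T y).Nonempty) := fun {x y} h => by
    have h5 : decide (ps T x).Nonempty = decide (ps T y).Nonempty := congrArg (fun z => z.2.2.1) h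
    exact decide_eq_decide.mp h5
  have p6 : ∀ {x y : ℕ}, f x = f y → g x = g y := fun h => congrArg (fun z => z.2.2.2) h
  have hbn : (ps T b).Nonempty := (p5 g1).mp ((p5 g2).mpr hn)
  have hb64 : 64 ≤ b := by
    by_contra hcon
    have h5 := p3 g1
    have h6 : a = b := by omega
    obtain ⟨q, hq⟩ := hbn
    have h7 := mem_ps.mp hq
    exact h7.2 (hco q (by rw [h6]; exact h7.1) h7.1)
  obtain ⟨han, hmu, hcon⟩ := hc₁ a b ha hb (p1 g1) (p1 g2) (p1 g3) (p1 g4) hco hbn
  have hLa : Lb T a := by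
    obtain ⟨A, B, x, s, hA, hB, x1, x2, x3, x4, hs⟩ := hc₂ a b ha hb (p2 g1) (p2 g2) (p2 g3) (p2 g4) hco hbn
    exact lb_a hA hB hco hbn hmu x1 x2 x3 x4 hs
  have hLb : Lab T b := ⟨hb64, hbn, (p4 g1).mp hLa⟩
  exact hg a (a ^ b * b) ⟨b, han, hLb, hco, hcon, hmu, rfl⟩ (p6 g4)

end PRF3
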