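import Mathlib
import Pool.Agent.Hhelper34.CopT.Final

/-!
# The final assembly
-/

namespace PRF3

open PRF.TGap

/-- `S` with the numbers `≤ k` replaced by those marked by `F` -/
def mod (k : ℕ) (F : Fin (k + 1) → Bool) (S : Set ℕ) : Set ℕ :=
  {p | (p ∈ S ∧ k < p) ∨ ∃ h : p < k + 1, F ⟨p, h⟩ = true}

/-- the final assembly -/
theorem assemble (k : ℕ)
    (big : ∃ r : ℕ, ∀ T : Set ℕ, ∃ c : ℕ → Fin r, ∀ a b : ℕ, 1 < a → 1 < b →
      c a = c b → c a = c (a * b) → c a = c (a ^ b) → c a = c (a ^ b * b) →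
      ∀ p q : ℕ, p.Prime → q.Prime → p ∉ T → q ∉ T → p ∣ a → p ∣ b → q ∣ a * b →
      (∀ s : ℕ, s.Prime → s ∉ T → s ∣ a * b → q ≤ s) → tower k q < p ^ (Nat.gcd a b).factorization p) :
    ∃ r : ℕ, ∀ T : ℕ → Set ℕ, ∃ c : ℕ → Fin r, ∀ a b : ℕ, 1 < a → 1 < b →
      T a = T b → T (a * b) = T b → T (a ^ b) = T b → T (a ^ b * b) = T b →
      (∃ q : ℕ, q.Prime ∧ q ∣ a * b ∧ (q ∉ T b ∨ (q ≤ k ∧ ¬ q ∣ Nat.gcd a b))) →
      (∀ p q : ℕ, p.Prime → q.Prime → p ∉ T b → q ∉ T b → p ∣ Nat.gcd a b → q ∣ a * b →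
        p ^ (Nat.gcd a b).factorization p ≤ tower k q) →
      c a = c b → c a = c (a * b) → c a = c (a ^ b) → c a = c (a ^ b * b) → False := by
  classical
  obtain ⟨r₁, h₁⟩ := Pool.Agent.Hhelper34.CopT.common_none
  obtain ⟨r₂, h₂⟩ := big
  choose c₁ hc₁ using h₁
  choose c₂ hc₂ using h₂
  let X := ((Fin (k + 1) → Bool) → Fin r₁) × Fin r₂
  refine ⟨Fintype.card X, fun T => ?_⟩
  let f : ℕ → X := fun n => (fun F => c₁ (mod k F (T n)) n, c₂ (T n) n)
  refine ⟨fun n => Fintype.equivFin X (f n), ?_⟩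
  intro a b ha hb t1 t2 t3 t4 hq hgcd h1 h2 h3 h4
  have g1 : f a = f b := (Fintype.equivFin X).injective h1
  have g2 : f a = f (a * b) := (Fintype.equivFin X).injective h2
  have g3 : f a = f (a ^ b) := (Fintype.equivFin X).injective h3
  have g4 : f a = f (a ^ b * b) := (Fintype.equivFin X).injective h4
  have p1 : ∀ {x y : ℕ}, f x = f y → T x = T b → T y = T b → ∀ F, c₁ (mod k F (T b)) x = c₁ (mod k F (T b)) y := by
    intro x y h hx hy F
    have h5 : c₁ (mod k F (T x)) x = c₁ (mod k F (T y)) y := congrFun (congrArg Prod.fst h) F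
    rw [hx, hy] at h5
    exact h5
  have p2 : ∀ {x y : ℕ}, f x = f y → T x = T b → T y = T b → c₂ (T b) x = c₂ (T b) y := by
    intro x y h hx hy
    have h5 : c₂ (T x) x = c₂ (T y) y := congrArg Prod.snd h
    rw [hx, hy] at h5
    exact h5
  by_cases hcom : ∃ p : ℕ, p.Prime ∧ p ∣ a ∧ p ∣ b ∧ p ∉ T b
  · -- a common prime factor outside `T`
    obtain ⟨p, hp, hpa, hpb, hpT⟩ := hcom
    have hex : ∃ s : ℕ, s.Prime ∧ s ∉ T b ∧ s ∣ a * b := ⟨p, hp, hpT, Dvd.dvd.mul_right hpa b⟩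
    obtain ⟨e1, e2, e3⟩ := Nat.find_spec hex
    have h5 := hc₂ (T b) a b ha hb (p2 g1 t1 rfl) (p2 g2 t1 t2) (p2 g3 t1 t3) (p2 g4 t1 t4) p (Nat.find hex)
      hp e1 hpT e2 hpa hpb e3 (fun s hs hsT hsd => Nat.find_min' hex ⟨hs, hsT, hsd⟩)
    have h6 := hgcd p (Nat.find hex) hp e1 hpT e2 (Nat.dvd_gcd hpa hpb) e3
    omega
  · -- all common prime factors are in `T`
    push Not at hcom
    set F : Fin (k + 1) → Bool := fun p => decide (p.val ∣ Nat.gcd a b) with hF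
    refine hc₁ (mod k F (T b)) a b ha hb ?_ ?_ (p1 g1 t1 rfl F) (p1 g2 t1 t2 F) (p1 g3 t1 t3 F) (p1 g4 t1 t4 F)
    · intro q hq' hqa hqb
      rcases Nat.lt_or_ge k q with h5 | h5
      · exact Or.inl ⟨hcom q hq' hqa hqb, h5⟩
      · refine Or.inr ⟨by omega, ?_⟩
        rw [hF]
        exact decide_eq_true (Nat.dvd_gcd hqa hqb)
    · obtain ⟨q, hq1, hq2, hq3⟩ := hq
      refine ⟨q, hq1, hq2, ?_⟩
      have hng : ¬ q ∣ Nat.gcd a b := by
        rcases hq3 with h5 | h5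
        · intro h6
          exact h5 (hcom q hq1 (h6.trans (Nat.gcd_dvd_left a b)) (h6.trans (Nat.gcd_dvd_right a b)))
        · exact h5.2
      rintro (⟨h5, h6⟩ | ⟨h5, h6⟩)
      · rcases hq3 with h7 | h7
        · exact h7 h5
        · omega
      · rw [hF] at h6
        exact hng (of_decide_eq_true h6)

end PRF3
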