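import Mathlib
import Pool.Agent.PRF3.T5
import Pool.Agent.PRF.TGap2

/-!
# Common prime factors outside `T` have large exponents
-/

namespace PRF3

open PRF PRF.TGap PRF2

variable {T : Set ℕ}

/-- the least prime factor outside `T` -/
noncomputable def lp (T : Set ℕ) (n : ℕ) : ℕ := sInf {q | q ∈ ps T n}

theorem lp_mem {n : ℕ} (hn : (ps T n).Nonempty) : lp T n ∈ ps T n := by
  obtain ⟨q, hq⟩ := hn
  exact Nat.sInf_mem (s := {q | q ∈ ps T n}) ⟨q, hq⟩

theorem lp_le {n q : ℕ} (hq : q ∈ ps T n) : lp T n ≤ q := Nat.sInf_le hq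

theorem lp_congr {m n : ℕ} (h : ps T m = ps T n) : lp T m = lp T n := by
  unfold lp
  rw [h]

/-- common prime factors outside `T` have large exponents in terms of the least prime factor `q` of `ab` outside `T` -/
theorem bigT (k : ℕ) : ∃ r : ℕ, ∀ T : Set ℕ, ∃ c : ℕ → Fin r, ∀ a b : ℕ, 1 < a → 1 < b →
    c a = c b → c a = c (a * b) → c a = c (a ^ b) → c a = c (a ^ b * b) →
    ∀ p q : ℕ, p.Prime → q.Prime → p ∉ T → q ∉ T → p ∣ a → p ∣ b → q ∣ a * b →
    (∀ s : ℕ, s.Prime → s ∉ T → s ∣ a * b → q ≤ s) → tower k q < p ^ (Nat.gcd a b).factorization p := by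
  classical
  obtain ⟨r₀, hr₀⟩ := Pool.Agent.Results.MP_1b773e_co.CommonData.result (1 / 4) (by norm_num)
  obtain ⟨r₁, c₁, hc₁⟩ := tower_all k
  let P₁ : Set ℕ → ℕ → Prop := fun T n => tower k (lp T n) ≤ n
  let P₂ : Set ℕ → ℕ → Prop := fun T n => ∃ x m, n = x ^ m ∧ tower k (lp T n) ≤ m
  refine ⟨Fintype.card ((Fin r₀ × Fin r₁) × (Bool × Bool)), fun T => ?_⟩
  obtain ⟨c₀, hc₀⟩ := hr₀ (ℕ × ℕ) (fun n => (lp T n, n.factorization (lp T n))) wt
  let f : ℕ → (Fin r₀ × Fin r₁) × (Bool × Bool) :=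
    fun n => ((c₀ n, c₁ n), (decide (P₁ T n), decide (P₂ T n)))
  refine ⟨fun n => Fintype.equivFin _ (f n), ?_⟩
  intro a b ha hb h1 h2 h3 h4 p q hp hq hpT hqT hpa hpb hqd hmin
  have g1 : f a = f b := (Fintype.equivFin _).injective h1
  have g2 : f a = f (a * b) := (Fintype.equivFin _).injective h2
  have g3 : f a = f (a ^ b) := (Fintype.equivFin _).injective h3
  have g4 : f a = f (a ^ b * b) := (Fintype.equivFin _).injective h4
  have p0 : ∀ {x y : ℕ}, f x = f y → c₀ x = c₀ y := fun h => congrArg (fun z => z.1.1) h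
  have p1 : ∀ {x y : ℕ}, f x = f y → c₁ x = c₁ y := fun h => congrArg (fun z => z.1.2) h
  have p2 : ∀ {x y : ℕ}, f x = f y → (P₁ T x ↔ P₁ T y) := fun {x y} h => by
    have h5 : decide (P₁ T x) = decide (P₁ T y) := congrArg (fun z => z.2.1) h
    exact decide_eq_decide.mp h5
  have p3 : ∀ {x y : ℕ}, f x = f y → (P₂ T x ↔ P₂ T y) := fun {x y} h => by
    have h5 : decide (P₂ T x) = decide (P₂ T y) := congrArg (fun z => z.2.2) h
    exact decide_eq_decide.mp h5
  have hgap := hc₁ a b ha hb (p1 g1) (p1 g2) (p1 g3) (p1 g4)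
  have hpsa : p ∈ ps T a := mem_ps.mpr ⟨Nat.mem_primeFactors.mpr ⟨hp, hpa, by omega⟩, hpT⟩
  have hpsb : p ∈ ps T b := mem_ps.mpr ⟨Nat.mem_primeFactors.mpr ⟨hp, hpb, by omega⟩, hpT⟩
  have han : (ps T a).Nonempty := ⟨p, hpsa⟩
  have hbn : (ps T b).Nonempty := ⟨p, hpsb⟩
  have hS : ps T (a * b) = ps T a ∪ ps T b := ps_ab ha hb
  have hS' : ps T (a ^ b * b) = ps T a ∪ ps T b := ps_z (by omega) (by omega)
  have hlz : lp T (a ^ b * b) = lp T (a * b) := lp_congr (by rw [hS, hS'])
  -- the least prime factor outside `T` divides `a`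
  have hle : lp T a ≤ lp T b := by
    by_contra hcon
    push Not at hcon
    have e1 : lp T (a * b) = lp T b := by
      apply le_antisymm
      · exact lp_le (by rw [hS]; exact Finset.mem_union_right _ (lp_mem hbn))
      · have h5 := lp_mem (T := T) (n := a * b) (by rw [hS]; exact hbn.mono Finset.subset_union_right)
        rw [hS, Finset.mem_union] at h5
        rcases h5 with h5 | h5
        · exact hcon.le.trans (lp_le h5)
        · exact lp_le h5
    have hbm := lp_mem hbn
    have e0 : a.factorization (lp T b) = 0 := by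
      apply fz0
      intro h5
      have := lp_le (T := T) (n := a) (mem_ps.mpr ⟨h5, (mem_ps.mp hbm).2⟩)
      omega
    have e2 : (a * b).factorization (lp T b) = b.factorization (lp T b) := by
      rw [f_ab ha hb, e0, zero_add]
    have e3 : (a ^ b * b).factorization (lp T b) = b.factorization (lp T b) := by
      rw [fz' (by omega) (by omega), e0, mul_zero, zero_add]
    obtain ⟨m, hm⟩ := hc₀ a b ha hb (p0 g1) (p0 g2) (p0 g3) (p0 g4) (by
      rw [hlz, e1, e2, e3])
    change |Pool.Agent.Results.MP_1b773e_co.CommonData.additive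
      (wt (lp T (a * b), (a * b).factorization (lp T (a * b)))) b - m| < 1 / 4 at hm
    rw [e1, e2, additive_wt (mem_ps.mp hbm).1] at hm
    have := two_le_two_pow (b.factorization (lp T b)) (fpos (mem_ps.mp hbm).1) m
    linarith
  have hqa : q = lp T a := by
    apply le_antisymm
    · have h5 := mem_ps.mp (lp_mem han)
      exact hmin _ (Nat.prime_of_mem_primeFactors h5.1) h5.2 ((Nat.dvd_of_mem_primeFactors h5.1).mul_right b)
    · have h5 : q ∈ ps T (a * b) :=
        mem_ps.mpr ⟨Nat.mem_primeFactors.mpr ⟨hq, hqd, Nat.mul_ne_zero (by omega) (by omega)⟩, hqT⟩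
      rw [hS, Finset.mem_union] at h5
      rcases h5 with h5 | h5
      · exact lp_le h5
      · exact hle.trans (lp_le h5)
  -- `b` is large
  have hbl : tower k (lp T b) ≤ b := by
    apply (p2 g1).mp
    apply (p2 g4).mpr
    change tower k (lp T (a ^ b * b)) ≤ a ^ b * b
    have e1 : lp T (a ^ b * b) ≤ b := by
      refine (lp_le (q := lp T b) (by rw [hS']; exact Finset.mem_union_right _ (lp_mem hbn))).trans ?_
      exact Nat.le_of_mem_primeFactors (mem_ps.mp (lp_mem hbn)).1
    refine (tower_mono' k e1).trans (hgap.le.trans ?_)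
    exact (Nat.le_self_pow (by omega) a).trans (Nat.le_mul_of_pos_right _ (by omega))
  have hal : tower k (lp T a) ≤ b := (tower_mono' k hle).trans hbl
  have hw : P₂ T (a ^ b) := ⟨a, b, rfl, by rw [lp_congr (ps_pow (T := T) (a := a) (b := b) (by omega))]; exact hal⟩
  have hexp : ∀ n, P₂ T n → p ∈ ps T n → tower k (lp T n) ≤ n.factorization p := by
    rintro n ⟨x, m, hx, hm⟩ hpn
    refine hm.trans ?_
    apply Nat.le_of_dvd (ps_pos hpn)
    rw [hx, Nat.factorization_pow]
    exact Dvd.intro _ rfl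
  have ea := hexp a ((p3 g3).mpr hw) hpsa
  have eb := hexp b ((p3 g1).mp ((p3 g3).mpr hw)) hpsb
  have hg : tower k q ≤ (Nat.gcd a b).factorization p := by
    rw [Nat.factorization_gcd (by omega) (by omega), Finsupp.inf_apply, hqa]
    exact le_inf ea ((tower_mono' k hle).trans eb)
  calc tower k q < 2 ^ tower k q := Nat.lt_two_pow_self
    _ ≤ 2 ^ (Nat.gcd a b).factorization p := Nat.pow_le_pow_right (by norm_num) hg
    _ ≤ p ^ (Nat.gcd a b).factorization p := Nat.pow_le_pow_left hp.two_le _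

end PRF3
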