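import Mathlib
import Pool.Agent.Results.MP_1b773e_co.CoprimePairs

/-!
# Special cases of the theorem on the common prime factors
-/

namespace PRF3

open Pool.Agent.Results.MP_1b773e_co.CoprimePairs

/-- `T = ∅`: a small greatest common divisor, for instance coprime pairs -/
theorem small_gcd (k : ℕ) : ∃ (r : ℕ) (c : ℕ → Fin r), ∀ a b : ℕ, 1 < a → 1 < b →
    Nat.gcd a b ≤ tower k (a * b).minFac →
    ¬ (c a = c b ∧ c a = c (a * b) ∧ c a = c (a ^ b) ∧ c a = c (a ^ b * b)) := by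
  obtain ⟨r, h⟩ := result k
  obtain ⟨c, hc⟩ := h fun _ => ∅
  refine ⟨r, c, fun a b ha hb hab => hc a b ha hb rfl rfl rfl rfl ?_ ?_⟩
  · have h1 : 1 < a * b := Nat.one_lt_mul_iff.mpr ⟨by omega, by omega, Or.inl ha⟩
    exact ⟨(a * b).minFac, Nat.minFac_prime (by omega), Nat.minFac_dvd _, Or.inl (by simp)⟩
  · intro p q hp hq _ _ hpd hqd
    have h1 : p ^ (Nat.gcd a b).factorization p ≤ Nat.gcd a b := by
      exact Nat.le_of_dvd (Nat.gcd_pos_of_pos_left _ (by omega)) (Nat.ordProj_dvd _ _)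
    refine (h1.trans hab).trans ?_
    have h2 : (a * b).minFac ≤ q := Nat.minFac_le_of_dvd hq.two_le hqd
    have h3 : ∀ k m n : ℕ, m ≤ n → tower k m ≤ tower k n := by
      intro k
      induction k with
      | zero => intro m n h; exact h
      | succ k ih => intro m n h; exact Nat.pow_le_pow_right (by norm_num) (ih m n h)
    exact h3 k _ _ h2

/-- `T = {p | p ≤ k}`: all pairs without common prime factor larger than `k`, unless `a` and `b` have the same prime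
factors -/
theorem smooth_gcd (k : ℕ) : ∃ (r : ℕ) (c : ℕ → Fin r), ∀ a b : ℕ, 1 < a → 1 < b →
    (∀ p : ℕ, p.Prime → p ∣ a → p ∣ b → p ≤ k) → a.primeFactors ≠ b.primeFactors →
    ¬ (c a = c b ∧ c a = c (a * b) ∧ c a = c (a ^ b) ∧ c a = c (a ^ b * b)) := by
  obtain ⟨r, h⟩ := result k
  obtain ⟨c, hc⟩ := h fun _ => {p | p ≤ k}
  refine ⟨r, c, fun a b ha hb hcom hne => hc a b ha hb rfl rfl rfl rfl ?_ ?_⟩
  · by_contra hcon
    push Not at hcon
    apply hne
    ext q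
    have key : ∀ q : ℕ, q.Prime → q ∣ a * b → q ∣ Nat.gcd a b := by
      intro q hq hqd
      obtain ⟨h1, h2⟩ := hcon q hq hqd
      exact h2 h1
    rw [Nat.mem_primeFactors, Nat.mem_primeFactors]
    constructor
    · rintro ⟨hq, hqa, -⟩
      exact ⟨hq, (key q hq (hqa.mul_right b)).trans (Nat.gcd_dvd_right a b), by omega⟩
    · rintro ⟨hq, hqb, -⟩
      exact ⟨hq, (key q hq (hqb.mul_left a)).trans (Nat.gcd_dvd_left a b), by omega⟩
  · intro p q hp hq hpT hqT hpd hqd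
    exact absurd (hcom p hp (hpd.trans (Nat.gcd_dvd_left a b)) (hpd.trans (Nat.gcd_dvd_right a b))) hpT

/-- `T` fixed: all pairs whose common prime factors are in `T`, while `ab` has a prime factor outside `T` -/
theorem common_in (T : Set ℕ) : ∃ (r : ℕ) (c : ℕ → Fin r), ∀ a b : ℕ, 1 < a → 1 < b →
    (∀ p : ℕ, p.Prime → p ∣ a → p ∣ b → p ∈ T) → (∃ q : ℕ, q.Prime ∧ q ∣ a * b ∧ q ∉ T) →
    ¬ (c a = c b ∧ c a = c (a * b) ∧ c a = c (a ^ b) ∧ c a = c (a ^ b * b)) := by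
  obtain ⟨r, h⟩ := result 0
  obtain ⟨c, hc⟩ := h fun _ => T
  refine ⟨r, c, fun a b ha hb hcom hne => hc a b ha hb rfl rfl rfl rfl ?_ ?_⟩
  · obtain ⟨q, h1, h2, h3⟩ := hne
    exact ⟨q, h1, h2, Or.inl h3⟩
  · intro p q hp hq hpT hqT hpd hqd
    exact absurd (hcom p hp (hpd.trans (Nat.gcd_dvd_left a b)) (hpd.trans (Nat.gcd_dvd_right a b))) hpT

end PRF3
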